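import Mathlib

set_option autoImplicit false

namespace Pool.Agent.Helper47.Manh

/-- the quantitative facts about `V t = E |X_t|^2` and `R t = E max_{s ≤ t} |y_s|` used below -/
structure Facts (V R : ℕ → ℝ) : Prop where
  V0 : ∀ n, 0 ≤ V n
  R0 : ∀ n, 0 ≤ R n
  V1 : V 1 = 1
  main : ∀ n : ℕ, (n : ℝ) ^ 2 / 2 ≤ V n * (2 * R n + 1)
  mono : Monotone R
  chain : ∀ n : ℕ, R (2 ^ n) ≤ ∑ i ∈ Finset.range (n + 1), Real.sqrt (2 ^ (n - i) * (V (2 ^ i) / 2))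
  add : ∀ s t, V (s + t) ≤ 2 * V s + 2 * V t
  sub : ∀ s t, V s ≤ 2 * V (s + t) + 2 * V t
  upper : ∃ C : ℝ, 0 < C ∧ ∀ n : ℕ, V n ≤ C * ((n : ℝ) * Real.sqrt n)

variable {V R : ℕ → ℝ}

lemma chain_term (a K : ℝ) (hK : 0 ≤ K) (n i : ℕ) (hi : i ≤ n) (W : ℝ)
    (hW : W ≤ K * ((2 : ℝ) ^ i) ^ a) :
    Real.sqrt (2 ^ (n - i) * (W / 2)) ≤
      Real.sqrt (K / 2) * ((2 : ℝ) ^ ((n : ℝ) / 2)) * ((2 : ℝ) ^ ((a - 1) / 2)) ^ i := by
  refine Real.sqrt_le_iff.2 ⟨by positivity, ?_⟩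
  have h1 : (Real.sqrt (K / 2) * ((2 : ℝ) ^ ((n : ℝ) / 2)) * ((2 : ℝ) ^ ((a - 1) / 2)) ^ i) ^ 2 =
      K / 2 * (2 : ℝ) ^ ((n : ℝ) + (a - 1) * i) := by
    rw [mul_pow, mul_pow, Real.sq_sqrt (by positivity), ← Real.rpow_natCast ((2 : ℝ) ^ ((n : ℝ) / 2)) 2,
      ← Real.rpow_mul (by norm_num), ← pow_mul, ← Real.rpow_natCast ((2 : ℝ) ^ ((a - 1) / 2)) (i * 2),
      ← Real.rpow_mul (by norm_num), mul_assoc, ← Real.rpow_add (by norm_num)]
    congr 2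
    push_cast
    ring
  rw [h1]
  have h2 : (2 : ℝ) ^ (n - i) * (K * ((2 : ℝ) ^ i) ^ a / 2) =
      K / 2 * (2 : ℝ) ^ ((n : ℝ) + (a - 1) * i) := by
    rw [← Real.rpow_natCast 2 (n - i), ← Real.rpow_natCast 2 i, ← Real.rpow_mul (by norm_num),
      Nat.cast_sub hi]
    have : (n : ℝ) + (a - 1) * i = ((n : ℝ) - i) + i * a := by ring
    rw [this, Real.rpow_add (by norm_num)]
    ring
  rw [← h2]
  refine mul_le_mul_of_nonneg_left ?_ (by positivity)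
  linarith

lemma geom_le (r : ℝ) (hr : 1 < r) (n : ℕ) :
    ∑ i ∈ Finset.range (n + 1), r ^ i ≤ r / (r - 1) * r ^ n := by
  have h := geom_sum_eq (x := r) (by linarith) (n + 1)
  rw [h, div_mul_eq_mul_div]
  refine div_le_div_of_nonneg_right ?_ (by linarith)
  rw [pow_succ]
  linarith

/-- bound for `R (2^n)` from a power bound of `V` -/
lemma R_pow_le (F : Facts V R) (a K : ℝ) (ha : 1 < a) (hK : 0 < K) (n : ℕ)
    (h : ∀ i ≤ n, V (2 ^ i) ≤ K * ((2 : ℝ) ^ i) ^ a) :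
    R (2 ^ n) ≤ Real.sqrt (K / 2) * ((2 : ℝ) ^ ((a - 1) / 2) / ((2 : ℝ) ^ ((a - 1) / 2) - 1)) *
      ((2 : ℝ) ^ n) ^ (a / 2) := by
  have hr : 1 < (2 : ℝ) ^ ((a - 1) / 2) := Real.one_lt_rpow (by norm_num) (by linarith)
  refine (F.chain n).trans ?_
  have h1 : ∀ i ∈ Finset.range (n + 1), Real.sqrt (2 ^ (n - i) * (V (2 ^ i) / 2)) ≤
      Real.sqrt (K / 2) * ((2 : ℝ) ^ ((n : ℝ) / 2)) * ((2 : ℝ) ^ ((a - 1) / 2)) ^ i := by
    intro i hi
    rw [Finset.mem_range] at hi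
    exact chain_term a K hK.le n i (by omega) _ (h i (by omega))
  refine (Finset.sum_le_sum h1).trans ?_
  rw [← Finset.mul_sum]
  refine (mul_le_mul_of_nonneg_left (geom_le _ hr n) (by positivity)).trans (le_of_eq ?_)
  have h2 : ((2 : ℝ) ^ ((n : ℝ) / 2)) * ((2 : ℝ) ^ ((a - 1) / 2)) ^ n = ((2 : ℝ) ^ n) ^ (a / 2) := by
    rw [← Real.rpow_natCast ((2 : ℝ) ^ ((a - 1) / 2)) n, ← Real.rpow_mul (by norm_num),
      ← Real.rpow_add (by norm_num), ← Real.rpow_natCast 2 n, ← Real.rpow_mul (by norm_num)]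
    congr 1
    ring
  rw [← h2]
  ring

/-- from an upper bound with exponent `a` to a lower bound with exponent `2 - a/2` -/
theorem lower_of_upper (F : Facts V R) (a K : ℝ) (ha : 1 < a) (hK : 0 < K)
    (h : ∀ n : ℕ, 1 ≤ n → V n ≤ K * (n : ℝ) ^ a) :
    ∃ c : ℝ, 0 < c ∧ ∀ n : ℕ, 1 ≤ n → c * (n : ℝ) ^ (2 - a / 2) ≤ V n := by
  have hr : 1 < (2 : ℝ) ^ ((a - 1) / 2) := Real.one_lt_rpow (by norm_num) (by linarith)
  set D : ℝ := Real.sqrt (K / 2) * ((2 : ℝ) ^ ((a - 1) / 2) / ((2 : ℝ) ^ ((a - 1) / 2) - 1)) with hD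
  have hD0 : 0 ≤ D := by
    have : 0 < (2 : ℝ) ^ ((a - 1) / 2) - 1 := by linarith
    positivity
  refine ⟨1 / (2 * (2 * (D * 2 ^ (a / 2)) + 1)), by positivity, fun n hn => ?_⟩
  have hn' : (1 : ℝ) ≤ n := by exact_mod_cast hn
  have hn0 : (0 : ℝ) < n := by linarith
  have h1 : R n ≤ D * 2 ^ (a / 2) * (n : ℝ) ^ (a / 2) := by
    have h2 : n ≤ 2 ^ (Nat.clog 2 n) := Nat.le_pow_clog (by norm_num) n
    have h3 : 2 ^ (Nat.clog 2 n) ≤ 2 * n := by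
      rcases Nat.lt_or_ge 1 n with h4 | h4
      · have h5 := Nat.pow_pred_clog_lt_self (b := 2) (by norm_num) h4
        have h6 : 0 < Nat.clog 2 n := Nat.clog_pos (by norm_num) h4
        have h7 : 2 ^ (Nat.clog 2 n) = 2 * 2 ^ (Nat.clog 2 n).pred := by
          rw [← pow_succ']
          congr 1
          exact (Nat.succ_pred_eq_of_pos h6).symm
        omega
      · have : n = 1 := by omega
        subst this
        simp
    refine (F.mono h2).trans ?_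
    refine (R_pow_le F a K ha hK _ fun i _ => ?_).trans ?_
    · have := h (2 ^ i) Nat.one_le_two_pow
      push_cast at this
      exact this
    · rw [mul_assoc D, ← Real.mul_rpow (by norm_num) hn0.le]
      refine mul_le_mul_of_nonneg_left ?_ hD0
      refine Real.rpow_le_rpow (by positivity) ?_ (by linarith)
      exact_mod_cast h3
  have h2 : 2 * R n + 1 ≤ (2 * (D * 2 ^ (a / 2)) + 1) * (n : ℝ) ^ (a / 2) := by
    have : 1 ≤ (n : ℝ) ^ (a / 2) := Real.one_le_rpow hn' (by linarith)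
    nlinarith
  have h3 := F.main n
  have h4 : (n : ℝ) ^ 2 / 2 ≤ V n * ((2 * (D * 2 ^ (a / 2)) + 1) * (n : ℝ) ^ (a / 2)) :=
    h3.trans (mul_le_mul_of_nonneg_left h2 (F.V0 n))
  have h5 : (n : ℝ) ^ (2 - a / 2) = (n : ℝ) ^ 2 / (n : ℝ) ^ (a / 2) := by
    rw [Real.rpow_sub hn0]
    norm_num
  rw [h5, div_mul_div_comm, one_mul]
  rw [div_le_iff₀ (by positivity)]
  nlinarith

/-- the pointwise lower bound with exponent `5/4` -/
theorem lower54 (F : Facts V R) :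
    ∃ c : ℝ, 0 < c ∧ ∀ n : ℕ, 1 ≤ n → c * (n : ℝ) ^ ((5 : ℝ) / 4) ≤ V n := by
  obtain ⟨C, hC, hC2⟩ := F.upper
  have h := lower_of_upper F (3 / 2) C (by norm_num) hC ?_
  · norm_num at h
    exact h
  · intro n hn
    have hn0 : (0 : ℝ) < n := by exact_mod_cast hn
    refine (hC2 n).trans (le_of_eq ?_)
    congr 1
    rw [Real.sqrt_eq_rpow]
    conv_lhs => rw [show (n : ℝ) * (n : ℝ) ^ ((1 : ℝ) / 2) = (n : ℝ) ^ (1 : ℝ) * (n : ℝ) ^ ((1 : ℝ) / 2) by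
      rw [Real.rpow_one]]
    rw [← Real.rpow_add hn0]
    norm_num

end Pool.Agent.Helper47.Manh
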