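import Pool.Agent.Helper47.Manh.Ana

set_option autoImplicit false

open Filter Topology

namespace Pool.Agent.Helper47.Manh

variable {V R : ℕ → ℝ}

lemma r16_gt : (112 : ℝ) / 100 < (2 : ℝ) ^ (((4 : ℝ) / 3 - 1) / 2) := by
  have h1 : (((4 : ℝ) / 3 - 1) / 2) = 1 / 6 := by norm_num
  rw [h1]
  have h2 : ((2 : ℝ) ^ ((1 : ℝ) / 6)) ^ 6 = 2 := by
    rw [← Real.rpow_natCast, ← Real.rpow_mul (by norm_num)]
    norm_num
  by_contra h3
  push Not at h3
  have h4 : ((2 : ℝ) ^ ((1 : ℝ) / 6)) ^ 6 ≤ ((112 : ℝ) / 100) ^ 6 :=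
    pow_le_pow_left₀ (by positivity) h3 6
  rw [h2] at h4
  norm_num at h4

lemma B_le (r : ℝ) (hr : (112 : ℝ) / 100 < r) : r / (r - 1) ≤ 28 / 3 := by
  rw [div_le_div_iff₀ (by linarith) (by norm_num)]
  linarith

/-- infinitely often the exponent is at least `4/3` -/
theorem freq43 (F : Facts V R) :
    ∃ᶠ n : ℕ in atTop, (n : ℝ) ^ ((4 : ℝ) / 3) / 10 ≤ V n := by
  by_contra hcon
  rw [not_frequently] at hcon
  obtain ⟨N0, hN0⟩ := eventually_atTop.1 hcon
  push Not at hN0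
  set r : ℝ := (2 : ℝ) ^ (((4 : ℝ) / 3 - 1) / 2) with hr
  have hr1 : (112 : ℝ) / 100 < r := r16_gt
  have hB := B_le r hr1
  -- bound on R
  obtain ⟨i0, hi0⟩ : ∃ i0 : ℕ, N0 ≤ 2 ^ i0 := ⟨N0, Nat.lt_two_pow_self.le⟩
  set A : ℝ := ∑ i ∈ Finset.range i0, Real.sqrt (V (2 ^ i) / 2) with hA
  have hR : ∀ n : ℕ, i0 ≤ n → R (2 ^ n) ≤ (2 : ℝ) ^ ((n : ℝ) / 2) * A +
      Real.sqrt (1 / 20) * (28 / 3) * ((2 : ℝ) ^ n) ^ ((2 : ℝ) / 3) := by
    intro n hn
    refine (F.chain n).trans ?_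
    rw [← Finset.sum_range_add_sum_Ico _ (show i0 ≤ n + 1 by omega)]
    refine add_le_add ?_ ?_
    · rw [hA, Finset.mul_sum]
      refine Finset.sum_le_sum fun i hi => ?_
      rw [Finset.mem_range] at hi
      rw [Real.sqrt_mul (by positivity)]
      refine mul_le_mul_of_nonneg_right ?_ (Real.sqrt_nonneg _)
      rw [Real.sqrt_eq_rpow, ← Real.rpow_natCast 2 (n - i), ← Real.rpow_mul (by norm_num)]
      refine Real.rpow_le_rpow_of_exponent_le (by norm_num) ?_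
      rw [Nat.cast_sub (by omega)]
      have : (0 : ℝ) ≤ i := Nat.cast_nonneg i
      linarith
    · have h1 : ∀ i ∈ Finset.Ico i0 (n + 1), Real.sqrt (2 ^ (n - i) * (V (2 ^ i) / 2)) ≤
          Real.sqrt (1 / 20) * ((2 : ℝ) ^ ((n : ℝ) / 2)) * r ^ i := by
        intro i hi
        rw [Finset.mem_Ico] at hi
        have h2 := chain_term (4 / 3) (1 / 10) (by norm_num) n i (by omega) (V (2 ^ i)) (by
          have h3 := hN0 (2 ^ i) (hi0.trans (Nat.pow_le_pow_right (by norm_num) hi.1))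
          push_cast at h3
          linarith)
        rw [show (1 : ℝ) / 10 / 2 = 1 / 20 by norm_num] at h2
        exact h2
      refine (Finset.sum_le_sum h1).trans ?_
      rw [← Finset.mul_sum]
      have h4 : ∑ i ∈ Finset.Ico i0 (n + 1), r ^ i ≤ r / (r - 1) * r ^ n := by
        refine le_trans ?_ (geom_le r (by linarith) n)
        refine Finset.sum_le_sum_of_subset_of_nonneg ?_ fun i _ _ => by positivity
        intro i hi
        rw [Finset.mem_Ico] at hi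
        exact Finset.mem_range.2 hi.2
      have h5 : ∑ i ∈ Finset.Ico i0 (n + 1), r ^ i ≤ 28 / 3 * r ^ n :=
        h4.trans (mul_le_mul_of_nonneg_right hB (by positivity))
      refine (mul_le_mul_of_nonneg_left h5 (by positivity)).trans (le_of_eq ?_)
      have h6 : ((2 : ℝ) ^ ((n : ℝ) / 2)) * r ^ n = ((2 : ℝ) ^ n) ^ ((2 : ℝ) / 3) := by
        rw [hr, ← Real.rpow_natCast ((2 : ℝ) ^ _) n, ← Real.rpow_mul (by norm_num),
          ← Real.rpow_add (by norm_num), ← Real.rpow_natCast 2 n, ← Real.rpow_mul (by norm_num)]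
        congr 1
        ring
      rw [← h6]
      ring
  -- contradiction in the limit
  have hlim : Tendsto (fun n : ℕ => (1 / 10) * (2 * A * ((2 : ℝ) ^ (-(1 : ℝ) / 6)) ^ n +
      2 * (Real.sqrt (1 / 20) * (28 / 3)) + ((2 : ℝ) ^ (-(2 : ℝ) / 3)) ^ n)) atTop
      (𝓝 ((1 / 10) * (2 * A * 0 + 2 * (Real.sqrt (1 / 20) * (28 / 3)) + 0))) := by
    have h1 : Tendsto (fun n : ℕ => ((2 : ℝ) ^ (-(1 : ℝ) / 6)) ^ n) atTop (𝓝 0) :=
      tendsto_pow_atTop_nhds_zero_of_lt_one (by positivity)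
        (Real.rpow_lt_one_of_one_lt_of_neg (by norm_num) (by norm_num))
    have h2 : Tendsto (fun n : ℕ => ((2 : ℝ) ^ (-(2 : ℝ) / 3)) ^ n) atTop (𝓝 0) :=
      tendsto_pow_atTop_nhds_zero_of_lt_one (by positivity)
        (Real.rpow_lt_one_of_one_lt_of_neg (by norm_num) (by norm_num))
    exact ((h1.const_mul _).add_const _ |>.add h2).const_mul _
  have hlt : (1 / 10) * (2 * A * 0 + 2 * (Real.sqrt (1 / 20) * (28 / 3)) + 0) < (1 : ℝ) / 2 := by
    have h1 : Real.sqrt (1 / 20) < 1 / 4 := by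
      rw [Real.sqrt_lt' (by norm_num)]
      norm_num
    linarith
  obtain ⟨n, hn1, hn2⟩ := ((hlim.eventually_lt_const hlt).and (eventually_ge_atTop i0)).exists
  have h1 := F.main (2 ^ n)
  have h2 := hR n hn2
  have h3 := hN0 (2 ^ n) (hi0.trans (Nat.pow_le_pow_right (by norm_num) hn2))
  have h4 : 0 ≤ R (2 ^ n) := F.R0 _
  set x : ℝ := (2 : ℝ) ^ n with hx
  have hx0 : 0 < x := by positivity
  push_cast at h1 h3
  rw [← hx] at h1 h3
  have h5 : x ^ 2 / 2 ≤ x ^ ((4 : ℝ) / 3) / 10 * (2 * ((2 : ℝ) ^ ((n : ℝ) / 2) * A +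
      Real.sqrt (1 / 20) * (28 / 3) * x ^ ((2 : ℝ) / 3)) + 1) := by
    refine h1.trans ?_
    refine mul_le_mul h3.le (by linarith) (by linarith) (by positivity)
  have e1 : (2 : ℝ) ^ ((n : ℝ) / 2) = x ^ ((2 : ℝ) / 3) * ((2 : ℝ) ^ (-(1 : ℝ) / 6)) ^ n := by
    rw [hx, ← Real.rpow_natCast 2 n, ← Real.rpow_mul (by norm_num),
      ← Real.rpow_natCast ((2 : ℝ) ^ _) n, ← Real.rpow_mul (by norm_num),
      ← Real.rpow_add (by norm_num)]
    congr 1
    ring
  have e2 : (1 : ℝ) = x ^ ((2 : ℝ) / 3) * ((2 : ℝ) ^ (-(2 : ℝ) / 3)) ^ n := by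
    rw [hx, ← Real.rpow_natCast 2 n, ← Real.rpow_mul (by norm_num),
      ← Real.rpow_natCast ((2 : ℝ) ^ _) n, ← Real.rpow_mul (by norm_num),
      ← Real.rpow_add (by norm_num)]
    rw [show (n : ℝ) * (2 / 3) + -2 / 3 * n = 0 by ring, Real.rpow_zero]
  have e3 : x ^ 2 = x ^ ((4 : ℝ) / 3) * x ^ ((2 : ℝ) / 3) := by
    rw [← Real.rpow_add hx0, ← Real.rpow_natCast x 2]
    norm_num
  have h6 : x ^ 2 / 2 ≤ x ^ 2 * ((1 / 10) * (2 * A * ((2 : ℝ) ^ (-(1 : ℝ) / 6)) ^ n +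
      2 * (Real.sqrt (1 / 20) * (28 / 3)) + ((2 : ℝ) ^ (-(2 : ℝ) / 3)) ^ n)) := by
    refine h5.trans (le_of_eq ?_)
    have e4 : x ^ ((4 : ℝ) / 3) / 10 * (2 * ((2 : ℝ) ^ ((n : ℝ) / 2) * A +
        Real.sqrt (1 / 20) * (28 / 3) * x ^ ((2 : ℝ) / 3)) + 1) =
        x ^ ((4 : ℝ) / 3) / 10 * (2 * (x ^ ((2 : ℝ) / 3) * ((2 : ℝ) ^ (-(1 : ℝ) / 6)) ^ n * A +
        Real.sqrt (1 / 20) * (28 / 3) * x ^ ((2 : ℝ) / 3)) +
        x ^ ((2 : ℝ) / 3) * ((2 : ℝ) ^ (-(2 : ℝ) / 3)) ^ n) := by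
      rw [← e2, e1]
    rw [e4, e3]
    ring
  have h7 : x ^ 2 * ((1 / 10) * (2 * A * ((2 : ℝ) ^ (-(1 : ℝ) / 6)) ^ n +
      2 * (Real.sqrt (1 / 20) * (28 / 3)) + ((2 : ℝ) ^ (-(2 : ℝ) / 3)) ^ n)) < x ^ 2 * (1 / 2) :=
    mul_lt_mul_of_pos_left hn1 (by positivity)
  linarith

/-- the time average dominates every value -/
lemma avg_ge (F : Facts V R) (s T : ℕ) (hs : s ≤ T) :
    (T : ℝ) * V s ≤ 8 * ∑ r ∈ Finset.range (T + 1), V r := by
  have h1 : ((s : ℝ) + 1) * V s ≤ 4 * ∑ r ∈ Finset.range (T + 1), V r := by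
    have h2 : ∑ _r ∈ Finset.range (s + 1), V s ≤
        ∑ r ∈ Finset.range (s + 1), (2 * V r + 2 * V (s - r)) := by
      refine Finset.sum_le_sum fun r hr => ?_
      rw [Finset.mem_range] at hr
      have := F.add r (s - r)
      rwa [show r + (s - r) = s by omega] at this
    rw [Finset.sum_const, Finset.card_range, nsmul_eq_mul, Finset.sum_add_distrib,
      ← Finset.mul_sum, ← Finset.mul_sum] at h2
    have h3 : ∑ r ∈ Finset.range (s + 1), V (s - r) = ∑ r ∈ Finset.range (s + 1), V r := by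
      have := Finset.sum_range_reflect V (s + 1)
      rw [← this]
      refine Finset.sum_congr rfl fun r _ => ?_
      congr 1
    have h4 : ∑ r ∈ Finset.range (s + 1), V r ≤ ∑ r ∈ Finset.range (T + 1), V r :=
      Finset.sum_le_sum_of_subset_of_nonneg
        (fun r hr => by rw [Finset.mem_range] at hr ⊢; omega) fun r _ _ => F.V0 r
    rw [h3] at h2
    push_cast at h2
    linarith
  have h5 : ((T : ℝ) - s + 1) * V s ≤ 4 * ∑ r ∈ Finset.range (T + 1), V r := by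
    have h2 : ∑ _t ∈ Finset.range (T - s + 1), V s ≤
        ∑ t ∈ Finset.range (T - s + 1), (2 * V (s + t) + 2 * V t) :=
      Finset.sum_le_sum fun t _ => F.sub s t
    rw [Finset.sum_const, Finset.card_range, nsmul_eq_mul, Finset.sum_add_distrib,
      ← Finset.mul_sum, ← Finset.mul_sum] at h2
    have h3 : ∑ t ∈ Finset.range (T - s + 1), V (s + t) ≤ ∑ r ∈ Finset.range (T + 1), V r := by
      rw [← Finset.sum_image (f := V) (g := fun t => s + t) (s := Finset.range (T - s + 1))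
        (fun a _ b _ h => by simpa using h)]
      refine Finset.sum_le_sum_of_subset_of_nonneg ?_ fun r _ _ => F.V0 r
      intro r hr
      rw [Finset.mem_image] at hr
      obtain ⟨t, ht, rfl⟩ := hr
      rw [Finset.mem_range] at ht ⊢
      omega
    have h4 : ∑ r ∈ Finset.range (T - s + 1), V r ≤ ∑ r ∈ Finset.range (T + 1), V r :=
      Finset.sum_le_sum_of_subset_of_nonneg
        (fun r hr => by rw [Finset.mem_range] at hr ⊢; omega) fun r _ _ => F.V0 r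
    push_cast [Nat.cast_sub hs] at h2
    linarith
  have h6 := F.V0 s
  nlinarith

end Pool.Agent.Helper47.Manh
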