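import Pool.Agent.Helper47.Manh.Ana2

set_option autoImplicit false

open Filter Topology

namespace Pool.Agent.Helper47.Manh

variable {V R : ℕ → ℝ}

/-- at some dyadic time below `2^n` the value is large -/
lemma dyadic97 (F : Facts V R) (C : ℝ) (hC : 0 < C)
    (hup : ∀ n : ℕ, V n ≤ C * ((n : ℝ) * Real.sqrt n)) (n : ℕ) :
    ∃ s ≤ 2 ^ n, ((2 : ℝ) ^ n) ^ 9 / ((6 * ((n : ℝ) + 1)) ^ 6 * C ^ 2) ≤ V s ^ 7 := by
  obtain ⟨i, hi, hmax⟩ := Finset.exists_max_image (Finset.range (n + 1))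
    (fun i => V (2 ^ i) / 2 ^ i) ⟨0, Finset.mem_range.2 (Nat.succ_pos _)⟩
  rw [Finset.mem_range] at hi
  set W : ℝ := V (2 ^ i) / 2 ^ i with hW
  have hW1 : 1 ≤ W := by
    have := hmax 0 (Finset.mem_range.2 (Nat.succ_pos _))
    simp only [pow_zero, F.V1, div_one] at this
    exact this
  set x : ℝ := (2 : ℝ) ^ n with hx
  have hx1 : 1 ≤ x := one_le_pow₀ (by norm_num)
  have hs1 : 1 ≤ Real.sqrt (x * W) := by
    rw [Real.one_le_sqrt]
    nlinarith
  have hR : R (2 ^ n) ≤ ((n : ℝ) + 1) * Real.sqrt (x * W) := by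
    refine (F.chain n).trans ?_
    have h1 : ∀ j ∈ Finset.range (n + 1), Real.sqrt (2 ^ (n - j) * (V (2 ^ j) / 2)) ≤
        Real.sqrt (x * W) := by
      intro j hj
      have h2 := hmax j hj
      rw [Finset.mem_range] at hj
      refine Real.sqrt_le_sqrt ?_
      have h3 : x = 2 ^ (n - j) * 2 ^ j := by
        rw [hx, ← pow_add]
        congr 1
        omega
      have h4 : V (2 ^ j) ≤ W * 2 ^ j := by
        rw [div_le_iff₀ (by positivity)] at h2
        exact h2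
      have h5 := F.V0 (2 ^ j)
      have h6 : (0 : ℝ) < 2 ^ (n - j) := by positivity
      rw [h3]
      nlinarith [mul_le_mul_of_nonneg_left h4 h6.le, mul_nonneg h6.le h5]
    refine (Finset.sum_le_sum h1).trans (le_of_eq ?_)
    rw [Finset.sum_const, Finset.card_range, nsmul_eq_mul]
    push_cast
    ring
  have hR2 : 2 * R (2 ^ n) + 1 ≤ 3 * (((n : ℝ) + 1) * Real.sqrt (x * W)) := by
    have : (1 : ℝ) ≤ ((n : ℝ) + 1) * Real.sqrt (x * W) := by
      have : (0 : ℝ) ≤ n := Nat.cast_nonneg n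
      nlinarith
    linarith
  have hm := F.main (2 ^ n)
  push_cast at hm
  rw [← hx] at hm
  have h1 : x ^ 2 / 2 ≤ V (2 ^ n) * (3 * (((n : ℝ) + 1) * Real.sqrt (x * W))) :=
    hm.trans (mul_le_mul_of_nonneg_left hR2 (F.V0 _))
  have hn0 : (0 : ℝ) ≤ n := Nat.cast_nonneg n
  have hA : x ^ 2 ≤ V (2 ^ n) * (6 * ((n : ℝ) + 1)) * Real.sqrt (x * W) := by nlinarith
  -- sixth power
  have hA6 : (x ^ 2) ^ 6 ≤ V (2 ^ n) ^ 6 * (6 * ((n : ℝ) + 1)) ^ 6 * (x * W) ^ 3 := by
    have h2 : (x ^ 2) ^ 6 ≤ (V (2 ^ n) * (6 * ((n : ℝ) + 1)) * Real.sqrt (x * W)) ^ 6 :=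
      pow_le_pow_left₀ (by positivity) hA 6
    have h3 : Real.sqrt (x * W) ^ 6 = (x * W) ^ 3 := by
      rw [show (6 : ℕ) = 2 * 3 by norm_num, pow_mul, Real.sq_sqrt (by positivity)]
    rw [mul_pow, mul_pow, h3] at h2
    exact h2
  -- lower bound at time 2^i
  have hVi : V (2 ^ i) = 2 ^ i * W := by
    rw [hW]
    field_simp
  have hB : W ^ 3 ≤ C ^ 2 * V (2 ^ i) := by
    have h2 := hup (2 ^ i)
    push_cast at h2
    rw [hVi] at h2
    have h3 : (0 : ℝ) < 2 ^ i := by positivity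
    have h4 : W ≤ C * Real.sqrt (2 ^ i) := by
      by_contra h5
      push Not at h5
      have := mul_lt_mul_of_pos_left h5 h3
      nlinarith
    have h5 : W ^ 2 ≤ C ^ 2 * 2 ^ i := by
      have := pow_le_pow_left₀ (by linarith) h4 2
      rwa [mul_pow, Real.sq_sqrt h3.le] at this
    rw [hVi]
    nlinarith
  -- combine
  set m : ℝ := max (V (2 ^ n)) (V (2 ^ i)) with hm'
  have hm0 : 0 ≤ m := le_max_of_le_left (F.V0 _)
  have hcomb : x ^ 9 / ((6 * ((n : ℝ) + 1)) ^ 6 * C ^ 2) ≤ m ^ 7 := by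
    rw [div_le_iff₀ (by positivity)]
    have h2 : V (2 ^ n) ^ 6 ≤ m ^ 6 := pow_le_pow_left₀ (F.V0 _) (le_max_left _ _) 6
    have h3 : V (2 ^ i) ≤ m := le_max_right _ _
    have h4 : x ^ 9 * W ^ 3 * x ^ 3 ≤ (m ^ 7 * ((6 * ((n : ℝ) + 1)) ^ 6 * C ^ 2)) * W ^ 3 * x ^ 3 := by
      calc x ^ 9 * W ^ 3 * x ^ 3 = (x ^ 2) ^ 6 * W ^ 3 := by ring
        _ ≤ (V (2 ^ n) ^ 6 * (6 * ((n : ℝ) + 1)) ^ 6 * (x * W) ^ 3) * (C ^ 2 * V (2 ^ i)) :=
            mul_le_mul hA6 hB (by positivity) (by positivity)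
        _ ≤ (m ^ 6 * (6 * ((n : ℝ) + 1)) ^ 6 * (x * W) ^ 3) * (C ^ 2 * m) := by
            have := F.V0 (2 ^ i)
            gcongr
        _ = _ := by ring
    have h5 : 0 < W ^ 3 * x ^ 3 := by positivity
    have h6 : x ^ 9 * (W ^ 3 * x ^ 3) ≤
        (m ^ 7 * ((6 * ((n : ℝ) + 1)) ^ 6 * C ^ 2)) * (W ^ 3 * x ^ 3) := by
      calc x ^ 9 * (W ^ 3 * x ^ 3) = x ^ 9 * W ^ 3 * x ^ 3 := by ring
        _ ≤ _ := h4
        _ = _ := by ring
    exact le_of_mul_le_mul_right h6 h5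
  rcases max_choice (V (2 ^ n)) (V (2 ^ i)) with h | h
  · exact ⟨2 ^ n, le_rfl, by rw [← h]; exact hcomb⟩
  · exact ⟨2 ^ i, Nat.pow_le_pow_right (by norm_num) (by omega), by rw [← h]; exact hcomb⟩

/-- the time-averaged lower bound with exponent `9/7` for every time -/
theorem avg97 (F : Facts V R) :
    ∃ c : ℝ, 0 < c ∧ ∀ n : ℕ, 2 ≤ n →
      c * ((n : ℝ) ^ ((9 : ℝ) / 7) / (Real.log n) ^ ((6 : ℝ) / 7)) ≤
        (∑ s ∈ Finset.range (n + 1), V s) / n := by
  obtain ⟨C, hC, hup⟩ := F.upper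
  refine ⟨(1 / (2 ^ 9 * 18 ^ 6 * C ^ 2)) ^ ((1 : ℝ) / 7) / 8, by positivity, fun T hT => ?_⟩
  have hT' : (2 : ℝ) ≤ T := by exact_mod_cast hT
  have hT0 : (0 : ℝ) < T := by linarith
  have hlog : 0 < Real.log T := Real.log_pos (by linarith)
  obtain ⟨s, hs, hs2⟩ := dyadic97 F C hC hup (Nat.log 2 T)
  have h1 : 2 ^ Nat.log 2 T ≤ T := Nat.pow_log_le_self 2 (by omega)
  have h2 : T < 2 ^ (Nat.log 2 T + 1) := Nat.lt_pow_succ_log_self (by norm_num) T
  have h3 : (T : ℝ) / 2 ≤ (2 : ℝ) ^ Nat.log 2 T := by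
    have : (T : ℝ) < (2 : ℝ) ^ (Nat.log 2 T + 1) := by exact_mod_cast h2
    rw [pow_succ] at this
    linarith
  have h4 : (Nat.log 2 T : ℝ) + 1 ≤ 3 * Real.log T := by
    have h5 : (2 : ℝ) ^ Nat.log 2 T ≤ T := by exact_mod_cast h1
    have h6 : (Nat.log 2 T : ℝ) * Real.log 2 ≤ Real.log T := by
      rw [← Real.log_pow]
      exact Real.log_le_log (by positivity) h5
    have h7 : Real.log 2 ≤ Real.log T := Real.log_le_log (by norm_num) hT'
    have h8 := Real.log_two_gt_d9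
    have h9 : (0 : ℝ) ≤ Nat.log 2 T := Nat.cast_nonneg _
    nlinarith
  have h5 : (T : ℝ) ^ 9 / (Real.log T) ^ 6 * (1 / (2 ^ 9 * 18 ^ 6 * C ^ 2)) ≤ V s ^ 7 := by
    refine le_trans ?_ hs2
    have h6 : (T : ℝ) ^ 9 / (Real.log T) ^ 6 * (1 / (2 ^ 9 * 18 ^ 6 * C ^ 2)) =
        ((T : ℝ) / 2) ^ 9 / ((6 * (3 * Real.log T)) ^ 6 * C ^ 2) := by
      field_simp
      ring
    rw [h6]
    refine div_le_div₀ (by positivity) ?_ (by positivity) ?_
    · exact pow_le_pow_left₀ (by positivity) h3 9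
    · gcongr
  have h6 : (T : ℝ) ^ ((9 : ℝ) / 7) / (Real.log T) ^ ((6 : ℝ) / 7) *
      (1 / (2 ^ 9 * 18 ^ 6 * C ^ 2)) ^ ((1 : ℝ) / 7) ≤ V s := by
    have h7 := Real.rpow_le_rpow (by positivity) h5 (show (0 : ℝ) ≤ 1 / 7 by norm_num)
    have h8 : (V s ^ 7) ^ ((1 : ℝ) / 7) = V s := by
      have := Real.pow_rpow_inv_natCast (F.V0 s) (show (7 : ℕ) ≠ 0 by norm_num)
      norm_num at this ⊢
      exact this
    rw [h8, Real.mul_rpow (by positivity) (by positivity), Real.div_rpow (by positivity)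
      (by positivity), ← Real.rpow_natCast (T : ℝ) 9, ← Real.rpow_natCast (Real.log T) 6,
      ← Real.rpow_mul hT0.le, ← Real.rpow_mul hlog.le] at h7
    norm_num at h7 ⊢
    exact h7
  have h7 := avg_ge F s T (hs.trans h1)
  rw [le_div_iff₀ hT0]
  nlinarith

/-- the conjecture is equivalent to its time-averaged upper half -/
theorem equiv43 (F : Facts V R) :
    Tendsto (fun t : ℕ => Real.log (V t) / Real.log t) atTop (𝓝 (4 / 3)) ↔
      ∀ ε : ℝ, 0 < ε → ∀ᶠ T : ℕ in atTop,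
        (∑ s ∈ Finset.range (T + 1), V s) / T ≤ (T : ℝ) ^ ((4 : ℝ) / 3 + ε) := by
  have hpos : ∀ n : ℕ, 1 ≤ n → 0 < V n := by
    intro n hn
    have h1 := F.main n
    have h2 : (0 : ℝ) < (n : ℝ) ^ 2 / 2 := by positivity
    have h3 := F.V0 n
    by_contra h4
    have h5 : V n = 0 := le_antisymm (not_lt.1 h4) h3
    rw [h5, zero_mul] at h1
    linarith
  constructor
  · intro h ε hε
    have h1 := h.eventually_lt_const (show (4 : ℝ) / 3 < 4 / 3 + ε / 2 by linarith)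
    obtain ⟨t0, ht0⟩ := eventually_atTop.1 (h1.and (eventually_ge_atTop 2))
    have h2 : ∀ t : ℕ, t0 ≤ t → V t ≤ (t : ℝ) ^ ((4 : ℝ) / 3 + ε / 2) := by
      intro t ht
      obtain ⟨h3, h4⟩ := ht0 t ht
      have h5 : (2 : ℝ) ≤ t := by exact_mod_cast h4
      have hlog : 0 < Real.log t := Real.log_pos (by linarith)
      rw [div_lt_iff₀ hlog] at h3
      rw [← Real.log_le_log_iff (hpos t (by omega)) (by positivity),
        Real.log_rpow (by linarith)]
      exact h3.le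
    set S0 : ℝ := ∑ s ∈ Finset.range t0, V s with hS0
    have hS00 : 0 ≤ S0 := Finset.sum_nonneg fun s _ => F.V0 s
    have h6 : Tendsto (fun T : ℕ => (T : ℝ) ^ (ε / 2)) atTop atTop :=
      (tendsto_rpow_atTop (by linarith)).comp tendsto_natCast_atTop_atTop
    filter_upwards [h6.eventually_ge_atTop (S0 + 2), eventually_ge_atTop 1] with T hT hT1
    have hT1' : (1 : ℝ) ≤ T := by exact_mod_cast hT1
    have hT0 : (0 : ℝ) < T := by linarith
    rw [div_le_iff₀ hT0]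
    have h7 : ∀ s ∈ Finset.range (T + 1), V s ≤ (if s < t0 then V s else 0) +
        (T : ℝ) ^ ((4 : ℝ) / 3 + ε / 2) := by
      intro s hs
      rw [Finset.mem_range] at hs
      by_cases hst : s < t0
      · rw [if_pos hst]
        have : 0 ≤ (T : ℝ) ^ ((4 : ℝ) / 3 + ε / 2) := by positivity
        linarith
      · rw [if_neg hst, zero_add]
        refine (h2 s (not_lt.1 hst)).trans ?_
        refine Real.rpow_le_rpow (Nat.cast_nonneg _) ?_ (by linarith)
        exact_mod_cast (by omega : s ≤ T)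
    have h8 : ∑ s ∈ Finset.range (T + 1), (if s < t0 then V s else 0) ≤ S0 := by
      rw [← Finset.sum_filter]
      refine Finset.sum_le_sum_of_subset_of_nonneg ?_ fun s _ _ => F.V0 s
      intro s hs
      rw [Finset.mem_filter] at hs
      exact Finset.mem_range.2 hs.2
    have h9 := Finset.sum_le_sum h7
    rw [Finset.sum_add_distrib, Finset.sum_const, Finset.card_range, nsmul_eq_mul] at h9
    push_cast at h9
    set P : ℝ := (T : ℝ) ^ ((4 : ℝ) / 3 + ε / 2) with hP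
    have hP1 : 1 ≤ P := Real.one_le_rpow hT1' (by linarith)
    have h10 : (T : ℝ) ^ ((4 : ℝ) / 3 + ε) = P * (T : ℝ) ^ (ε / 2) := by
      rw [hP, ← Real.rpow_add hT0]
      congr 1
      ring
    rw [h10]
    have h11 : P * (S0 + 2) ≤ P * (T : ℝ) ^ (ε / 2) := mul_le_mul_of_nonneg_left hT (by linarith)
    have h12 : P * (S0 + 2) * T ≤ P * (T : ℝ) ^ (ε / 2) * T :=
      mul_le_mul_of_nonneg_right h11 hT0.le
    have h13 : S0 ≤ P * S0 * T := by
      have : 1 * S0 * 1 ≤ P * S0 * T := by gcongr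
      linarith
    nlinarith
  · intro h
    rw [Metric.tendsto_atTop']
    intro δ hδ
    -- all-time bounds
    set ε : ℝ := δ / 2 with hε
    have hε0 : 0 < ε := by positivity
    obtain ⟨T0, hT0⟩ := eventually_atTop.1 (h ε hε0)
    have hup : ∀ n : ℕ, 1 ≤ n → V n ≤
        (8 + ∑ s ∈ Finset.range T0, V s) * (n : ℝ) ^ ((4 : ℝ) / 3 + ε) := by
      intro n hn
      have hn' : (1 : ℝ) ≤ n := by exact_mod_cast hn
      have hP1 : 1 ≤ (n : ℝ) ^ ((4 : ℝ) / 3 + ε) := Real.one_le_rpow hn' (by linarith)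
      have hS : 0 ≤ ∑ s ∈ Finset.range T0, V s := Finset.sum_nonneg fun s _ => F.V0 s
      rcases Nat.lt_or_ge n T0 with h1 | h1
      · have h2 : V n ≤ ∑ s ∈ Finset.range T0, V s :=
          Finset.single_le_sum (f := V) (fun s _ => F.V0 s) (Finset.mem_range.2 h1)
        nlinarith
      · have h2 := hT0 n h1
        have h3 := avg_ge F n n le_rfl
        rw [div_le_iff₀ (by linarith)] at h2
        have h4 : (n : ℝ) * V n ≤ n * (8 * (n : ℝ) ^ ((4 : ℝ) / 3 + ε)) := by linarith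
        have h5 : V n ≤ 8 * (n : ℝ) ^ ((4 : ℝ) / 3 + ε) := le_of_mul_le_mul_left h4 (by linarith)
        nlinarith
    set K : ℝ := 8 + ∑ s ∈ Finset.range T0, V s with hK
    have hK0 : 0 < K := by
      have hS : 0 ≤ ∑ s ∈ Finset.range T0, V s := Finset.sum_nonneg fun s _ => F.V0 s
      linarith
    obtain ⟨c, hc, hlow⟩ := lower_of_upper F (4 / 3 + ε) K (by linarith) hK0 hup
    have hlog : Tendsto (fun n : ℕ => Real.log (n : ℝ)) atTop atTop :=
      Real.tendsto_log_atTop.comp tendsto_natCast_atTop_atTop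
    have e1 : ∀ᶠ n : ℕ in atTop, |Real.log K| < ε * Real.log n := by
      have := hlog.eventually_gt_atTop (|Real.log K| / ε)
      filter_upwards [this] with n hn
      rw [div_lt_iff₀ hε0] at hn
      linarith
    have e2 : ∀ᶠ n : ℕ in atTop, |Real.log c| < ε * Real.log n := by
      have := hlog.eventually_gt_atTop (|Real.log c| / ε)
      filter_upwards [this] with n hn
      rw [div_lt_iff₀ hε0] at hn
      linarith
    obtain ⟨n0, hn0⟩ := eventually_atTop.1 ((e1.and e2).and (eventually_ge_atTop 2))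
    refine ⟨n0, fun n hn => ?_⟩
    obtain ⟨⟨h1, h2⟩, h3⟩ := hn0 n hn.le
    have h3' : (2 : ℝ) ≤ n := by exact_mod_cast h3
    have hl : 0 < Real.log n := Real.log_pos (by linarith)
    have hVn := hpos n (by omega)
    have u1 : Real.log (V n) ≤ Real.log K + (4 / 3 + ε) * Real.log n := by
      have := Real.log_le_log hVn (hup n (by omega))
      rwa [Real.log_mul hK0.ne' (by positivity), Real.log_rpow (by linarith)] at this
    have u2 : Real.log c + (2 - (4 / 3 + ε) / 2) * Real.log n ≤ Real.log (V n) := by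
      have := Real.log_le_log (by positivity) (hlow n (by omega))
      rwa [Real.log_mul hc.ne' (by positivity), Real.log_rpow (by linarith)] at this
    rw [Real.dist_eq, abs_lt]
    rw [abs_lt] at h1 h2
    constructor
    · rw [lt_sub_iff_add_lt, lt_div_iff₀ hl]
      nlinarith
    · rw [sub_lt_iff_lt_add, div_lt_iff₀ hl]
      nlinarith

end Pool.Agent.Helper47.Manh
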