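import Pool.Agent.Helper47.Manh.Walk

set_option autoImplicit false
set_option linter.unusedSectionVars false

namespace Pool.Agent.Helper47.Manh

/-- finite sample space: rows, columns (indexed by `ZMod N`) and `T` coins -/
abbrev Om (N T : ℕ) := (ZMod N → Bool) × (ZMod N → Bool) × (Fin T → Bool)

/-- extend finitely many coins -/
def ext {T : ℕ} (c : Fin T → Bool) : ℕ → Bool := fun n => if h : n < T then c ⟨n, h⟩ else true

lemma ext_of_lt {T : ℕ} (c : Fin T → Bool) (n : ℕ) (h : n < T) : ext c n = c ⟨n, h⟩ := by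
  simp [ext, h]

/-- the walk on the finite sample space -/
def pos {N T : ℕ} (ω : Om N T) (n : ℕ) : ℤ × ℤ := walk ω.1 ω.2.1 (ext ω.2.2) n

/-- average over the finite sample space -/
noncomputable def Av {N T : ℕ} [NeZero N] (F : Om N T → ℝ) : ℝ :=
  (∑ ω, F ω) / (Fintype.card (Om N T) : ℝ)

section
variable {N T : ℕ} [NeZero N]

lemma card_pos : (0 : ℝ) < (Fintype.card (Om N T) : ℝ) := by
  have : 0 < Fintype.card (Om N T) := Fintype.card_pos
  exact_mod_cast this

lemma Av_const (a : ℝ) : Av (N := N) (T := T) (fun _ => a) = a := by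
  unfold Av
  rw [Finset.sum_const, nsmul_eq_mul, Finset.card_univ]
  field_simp [(card_pos (N := N) (T := T)).ne']

lemma Av_add (F G : Om N T → ℝ) : Av (fun ω => F ω + G ω) = Av F + Av G := by
  unfold Av; rw [Finset.sum_add_distrib, add_div]

lemma Av_sub (F G : Om N T → ℝ) : Av (fun ω => F ω - G ω) = Av F - Av G := by
  unfold Av; rw [Finset.sum_sub_distrib, sub_div]

lemma Av_neg (F : Om N T → ℝ) : Av (fun ω => - F ω) = - Av F := by
  unfold Av; rw [Finset.sum_neg_distrib, neg_div]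

lemma Av_mul_left (a : ℝ) (F : Om N T → ℝ) : Av (fun ω => a * F ω) = a * Av F := by
  unfold Av; rw [← Finset.mul_sum, mul_div_assoc]

lemma Av_sum {ι : Type*} (s : Finset ι) (F : ι → Om N T → ℝ) :
    Av (fun ω => ∑ i ∈ s, F i ω) = ∑ i ∈ s, Av (F i) := by
  unfold Av; rw [Finset.sum_comm, Finset.sum_div]

lemma Av_mono (F G : Om N T → ℝ) (h : ∀ ω, F ω ≤ G ω) : Av F ≤ Av G := by
  unfold Av
  exact div_le_div_of_nonneg_right (Finset.sum_le_sum fun ω _ => h ω) card_pos.le

lemma Av_nonneg (F : Om N T → ℝ) (h : ∀ ω, 0 ≤ F ω) : 0 ≤ Av F := by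
  unfold Av
  exact div_nonneg (Finset.sum_nonneg fun ω _ => h ω) card_pos.le

lemma Av_congr (F G : Om N T → ℝ) (h : ∀ ω, F ω = G ω) : Av F = Av G := by
  unfold Av; rw [Finset.sum_congr rfl fun ω _ => h ω]

/-- Cauchy-Schwarz -/
lemma Av_mul_sq_le (F G : Om N T → ℝ) :
    (Av (fun ω => F ω * G ω)) ^ 2 ≤ Av (fun ω => F ω ^ 2) * Av (fun ω => G ω ^ 2) := by
  unfold Av
  rw [div_pow, div_mul_div_comm, ← sq]
  exact div_le_div_of_nonneg_right (Finset.sum_mul_sq_le_sq_mul_sq _ _ _) (by positivity)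

lemma Av_sq_le (F : Om N T → ℝ) : (Av F) ^ 2 ≤ Av (fun ω => F ω ^ 2) := by
  have h := Av_mul_sq_le F (fun _ => (1 : ℝ))
  simp only [mul_one, one_pow] at h
  rw [Av_const, mul_one] at h
  exact h

/-- change of variables -/
lemma Av_comp (e : Om N T → Om N T) (he : Function.Bijective e) (F : Om N T → ℝ) :
    Av (fun ω => F (e ω)) = Av F := by
  unfold Av
  rw [he.sum_comp F]

/-- if a bijection changes the sign then the average is zero -/
lemma Av_eq_zero_of_odd (e : Om N T → Om N T) (he : Function.Bijective e) (F : Om N T → ℝ)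
    (h : ∀ ω, F (e ω) = - F ω) : Av F = 0 := by
  have h1 := Av_comp e he F
  rw [Av_congr _ _ h, Av_neg] at h1
  linarith

/-! ### the environment seen from the walk -/

/-- one step of the environment process with given coin -/
def stepEnv (b : Bool) (ω : Om N T) : Om N T :=
  if b = true then (ω.1, fun j => ω.2.1 (j + ((sg (ω.1 0) : ℤ) : ZMod N)), ω.2.2)
  else (fun k => ω.1 (k + ((sg (ω.2.1 0) : ℤ) : ZMod N)), ω.2.1, ω.2.2)

/-- inverse step -/
def stepInv (b : Bool) (ω : Om N T) : Om N T :=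
  if b = true then (ω.1, fun j => ω.2.1 (j - ((sg (ω.1 0) : ℤ) : ZMod N)), ω.2.2)
  else (fun k => ω.1 (k - ((sg (ω.2.1 0) : ℤ) : ZMod N)), ω.2.1, ω.2.2)

lemma stepInv_stepEnv (b : Bool) (ω : Om N T) : stepInv b (stepEnv b ω) = ω := by
  rcases ω with ⟨h, v, c⟩
  cases b <;> simp [stepInv, stepEnv]

lemma stepEnv_stepInv (b : Bool) (ω : Om N T) : stepEnv b (stepInv b ω) = ω := by
  rcases ω with ⟨h, v, c⟩
  cases b <;> simp [stepInv, stepEnv]

/-- the environment seen from the walk at time `s` (the coins are kept) -/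
def env (s : ℕ) (ω : Om N T) : Om N T :=
  (fun k => ω.1 (k + ((pos ω s).2 : ZMod N)), fun j => ω.2.1 (j + ((pos ω s).1 : ZMod N)), ω.2.2)

lemma env_zero (ω : Om N T) : env 0 ω = ω := by
  rcases ω with ⟨h, v, c⟩
  simp [env, pos]

lemma env_succ (s : ℕ) (ω : Om N T) : env (s + 1) ω = stepEnv (ext ω.2.2 s) (env s ω) := by
  rcases ω with ⟨h, v, c⟩
  unfold env stepEnv pos
  simp only [walk_succ]
  cases hc : ext c s
  · simp [add_comm, add_left_comm]
  · simp [add_comm, add_left_comm]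

lemma stepFull_bij (s : ℕ) :
    Function.Bijective (fun ω : Om N T => stepEnv (ext ω.2.2 s) ω) := by
  have h22 : ∀ (b : Bool) (ω : Om N T), (stepEnv b ω).2.2 = ω.2.2 := by
    intro b ω; unfold stepEnv; split_ifs <;> rfl
  have h22' : ∀ (b : Bool) (ω : Om N T), (stepInv b ω).2.2 = ω.2.2 := by
    intro b ω; unfold stepInv; split_ifs <;> rfl
  refine Function.bijective_iff_has_inverse.2
    ⟨fun ω => stepInv (ext ω.2.2 s) ω, fun ω => ?_, fun ω => ?_⟩
  · simp only [h22, stepInv_stepEnv]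
  · simp only [h22', stepEnv_stepInv]

lemma env_bij (s : ℕ) : Function.Bijective (env (N := N) (T := T) s) := by
  induction s with
  | zero =>
    have : env (N := N) (T := T) 0 = id := by funext ω; exact env_zero ω
    rw [this]; exact Function.bijective_id
  | succ s ih =>
    have : env (N := N) (T := T) (s + 1) = (fun ω : Om N T => stepEnv (ext ω.2.2 s) ω) ∘ env s := by
      funext ω
      rw [env_succ]
      rfl
    rw [this]
    exact (stepFull_bij s).comp ih

/-- shift of the coins (cyclically) -/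
def rotc (s : ℕ) (ω : Om N T) : Om N T :=
  (ω.1, ω.2.1, fun i : Fin T => ω.2.2 ⟨(i.1 + s) % T, Nat.mod_lt _ (i.pos)⟩)

lemma rotc_bij (s : ℕ) : Function.Bijective (rotc (N := N) (T := T) s) := by
  rw [Fintype.bijective_iff_injective_and_card]
  refine ⟨?_, rfl⟩
  rintro ⟨h, v, c⟩ ⟨h', v', c'⟩ H
  unfold rotc at H
  simp only [Prod.mk.injEq] at H
  obtain ⟨rfl, rfl, H3⟩ := H
  congr 2
  funext i
  have hT : 0 < T := i.pos
  have := congrFun H3 ⟨(i.1 + (T - s % T)) % T, Nat.mod_lt _ hT⟩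
  simp only at this
  have e : ((i.1 + (T - s % T)) % T + s) % T = i.1 := by
    have h1 : s % T < T := Nat.mod_lt _ hT
    have h2 : ((i.1 + (T - s % T)) % T + s) ≡ i.1 [MOD T] := by
      calc ((i.1 + (T - s % T)) % T + s) ≡ (i.1 + (T - s % T)) + s % T [MOD T] :=
            Nat.ModEq.add (Nat.mod_modEq _ _) (Nat.mod_modEq _ _).symm
        _ = i.1 + T := by omega
        _ ≡ i.1 [MOD T] := by simp [Nat.ModEq]
    have h3 : ((i.1 + (T - s % T)) % T + s) % T = i.1 % T := h2
    rwa [Nat.mod_eq_of_lt i.2] at h3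
  have e' : (⟨((i.1 + (T - s % T)) % T + s) % T, Nat.mod_lt _ hT⟩ : Fin T) = i := Fin.ext e
  rw [e'] at this
  exact this

end

end Pool.Agent.Helper47.Manh
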