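import Pool.Agent.Helper47.Manh.Main

set_option autoImplicit false
set_option linter.unusedSectionVars false

namespace Pool.Agent.Helper47.Manh

/-- deterministic dyadic chaining -/
lemma chain_det (n : ℕ) : ∀ (y : ℕ → ℝ) (s : ℕ), s ≤ 2 ^ n →
    |y s - y 0| ≤ ∑ i ∈ Finset.range (n + 1),
      Real.sqrt (∑ j ∈ Finset.range (2 ^ (n - i)), (y ((j + 1) * 2 ^ i) - y (j * 2 ^ i)) ^ 2) := by
  induction n with
  | zero =>
    intro y s hs
    simp only [zero_add, Finset.sum_range_one, pow_zero, tsub_zero, mul_one]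
    rw [Real.sqrt_sq_eq_abs]
    have hs' : s = 0 ∨ s = 1 := by simp at hs; omega
    rcases hs' with rfl | rfl
    · simp
    · simp
  | succ n ih =>
    intro y s hs
    rw [Finset.sum_range_succ']
    have h1 := ih (fun k => y (2 * k)) (s / 2) (by rw [pow_succ] at hs; omega)
    have h2 : ∀ i ∈ Finset.range (n + 1),
        Real.sqrt (∑ j ∈ Finset.range (2 ^ (n - i)),
          ((fun k => y (2 * k)) ((j + 1) * 2 ^ i) - (fun k => y (2 * k)) (j * 2 ^ i)) ^ 2) =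
        Real.sqrt (∑ j ∈ Finset.range (2 ^ (n + 1 - (i + 1))),
          (y ((j + 1) * 2 ^ (i + 1)) - y (j * 2 ^ (i + 1))) ^ 2) := by
      intro i _
      rw [Nat.add_sub_add_right]
      congr 1
      refine Finset.sum_congr rfl fun j _ => ?_
      simp only
      rw [show 2 * ((j + 1) * 2 ^ i) = (j + 1) * 2 ^ (i + 1) by ring,
        show 2 * (j * 2 ^ i) = j * 2 ^ (i + 1) by ring]
    rw [Finset.sum_congr rfl h2] at h1
    have h3 : |y s - y (2 * (s / 2))| ≤ Real.sqrt (∑ j ∈ Finset.range (2 ^ (n + 1 - 0)),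
        (y ((j + 1) * 2 ^ 0) - y (j * 2 ^ 0)) ^ 2) := by
      simp only [pow_zero, mul_one, tsub_zero]
      rcases Nat.even_or_odd' s with ⟨r, hr | hr⟩
      · rw [show 2 * (s / 2) = s by omega, sub_self, abs_zero]
        exact Real.sqrt_nonneg _
      · rw [show 2 * (s / 2) = 2 * r by omega, hr, ← Real.sqrt_sq_eq_abs]
        refine Real.sqrt_le_sqrt ?_
        refine Finset.single_le_sum (f := fun j => (y (j + 1) - y j) ^ 2)
          (fun j _ => sq_nonneg _) (Finset.mem_range.2 (by omega))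
    calc |y s - y 0| = |(y s - y (2 * (s / 2))) + (y (2 * (s / 2)) - y (2 * 0))| := by
          rw [mul_zero]; congr 1; ring
      _ ≤ |y s - y (2 * (s / 2))| + |y (2 * (s / 2)) - y (2 * 0)| := abs_add_le _ _
      _ ≤ _ := by
        rw [add_comm]
        exact add_le_add h1 h3

section
variable {N T : ℕ} [NeZero N]

/-- second moment of the horizontal displacement -/
noncomputable def Vf (N T : ℕ) [NeZero N] (t : ℕ) : ℝ :=
  Av (fun ω : Om N T => ((pos ω t).1 : ℝ) ^ 2)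

lemma Vf_nonneg (t : ℕ) : 0 ≤ Vf N T t := Av_nonneg _ fun _ => sq_nonneg _

/-- exchange of rows and columns -/
def swapO (ω : Om N T) : Om N T := (ω.2.1, ω.1, fun i => !(ω.2.2 i))

lemma swapO_bij : Function.Bijective (swapO (N := N) (T := T)) := by
  refine Function.Involutive.bijective ?_
  rintro ⟨h, v, c⟩
  simp [swapO]

lemma pos_swapO (ω : Om N T) (n : ℕ) (hn : n ≤ T) :
    pos (swapO ω) n = ((pos ω n).2, (pos ω n).1) := by
  unfold pos swapO
  rw [← walk_swap]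
  refine walk_congr_coins _ _ _ _ _ fun i hi => ?_
  rw [ext_of_lt _ i (by omega), ext_of_lt _ i (by omega)]

lemma Av_y_sq (t : ℕ) (ht : t ≤ T) :
    Av (fun ω : Om N T => ((pos ω t).2 : ℝ) ^ 2) = Vf N T t := by
  unfold Vf
  rw [← Av_comp swapO swapO_bij (fun ω : Om N T => ((pos ω t).1 : ℝ) ^ 2)]
  refine Av_congr _ _ fun ω => ?_
  rw [pos_swapO ω t ht]

lemma Av_y_increment (s t : ℕ) (hst : s + t ≤ T) :
    Av (fun ω : Om N T => (((pos ω (s + t)).2 : ℝ) - ((pos ω s).2 : ℝ)) ^ 2) = Vf N T t := by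
  rw [← Av_y_sq t (by omega)]
  have := Av_increment (N := N) (T := T) (fun p => ((p.2 : ℤ) : ℝ) ^ 2) s t hst
  rw [← this]
  refine Av_congr _ _ fun ω => ?_
  simp

lemma Av_x_increment (s t : ℕ) (hst : s + t ≤ T) :
    Av (fun ω : Om N T => (((pos ω (s + t)).1 : ℝ) - ((pos ω s).1 : ℝ)) ^ 2) = Vf N T t := by
  have := Av_increment (N := N) (T := T) (fun p => ((p.1 : ℤ) : ℝ) ^ 2) s t hst
  rw [Vf, ← this]
  refine Av_congr _ _ fun ω => ?_
  simp

/-- **Chaining bound** for the mean of the running maximum. -/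
theorem Av_mx_le (n : ℕ) (hn : 2 ^ n ≤ T) :
    Av (fun ω : Om N T => (mx ω (2 ^ n) : ℝ)) ≤
      ∑ i ∈ Finset.range (n + 1), Real.sqrt (2 ^ (n - i) * Vf N T (2 ^ i)) := by
  have h1 : ∀ ω : Om N T, (mx ω (2 ^ n) : ℝ) ≤ ∑ i ∈ Finset.range (n + 1),
      Real.sqrt (∑ j ∈ Finset.range (2 ^ (n - i)),
        (((pos ω ((j + 1) * 2 ^ i)).2 : ℝ) - ((pos ω (j * 2 ^ i)).2 : ℝ)) ^ 2) := by
    intro ω
    have h2 : ∀ s ≤ 2 ^ n, (((pos ω s).2.natAbs : ℕ) : ℝ) ≤ ∑ i ∈ Finset.range (n + 1),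
      Real.sqrt (∑ j ∈ Finset.range (2 ^ (n - i)),
        (((pos ω ((j + 1) * 2 ^ i)).2 : ℝ) - ((pos ω (j * 2 ^ i)).2 : ℝ)) ^ 2) := by
      intro s hs
      have h3 := chain_det n (fun s => ((pos ω s).2 : ℝ)) s hs
      have h4 : ((pos ω 0).2 : ℝ) = 0 := by simp [pos]
      simp only [h4, sub_zero] at h3
      rw [Nat.cast_natAbs, Int.cast_abs]
      exact h3
    unfold mx maxY
    obtain ⟨s, hs, hs2⟩ := Finset.exists_mem_eq_sup (Finset.range (2 ^ n + 1))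
      ⟨0, Finset.mem_range.2 (Nat.succ_pos _)⟩
      (fun s => ((walk ω.1 ω.2.1 (ext ω.2.2) s).2).natAbs)
    rw [hs2]
    exact h2 s (by have := Finset.mem_range.1 hs; omega)
  refine (Av_mono _ _ h1).trans ?_
  rw [Av_sum]
  refine Finset.sum_le_sum fun i hi => ?_
  rw [Finset.mem_range] at hi
  refine Real.le_sqrt_of_sq_le ?_
  refine (Av_sq_le _).trans ?_
  have h5 : ∀ ω : Om N T, (Real.sqrt (∑ j ∈ Finset.range (2 ^ (n - i)),
        (((pos ω ((j + 1) * 2 ^ i)).2 : ℝ) - ((pos ω (j * 2 ^ i)).2 : ℝ)) ^ 2)) ^ 2 =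
      ∑ j ∈ Finset.range (2 ^ (n - i)),
        (((pos ω ((j + 1) * 2 ^ i)).2 : ℝ) - ((pos ω (j * 2 ^ i)).2 : ℝ)) ^ 2 := by
    intro ω
    exact Real.sq_sqrt (Finset.sum_nonneg fun j _ => sq_nonneg _)
  rw [Av_congr _ _ h5, Av_sum]
  have h6 : ∀ j ∈ Finset.range (2 ^ (n - i)), Av (fun ω : Om N T =>
      (((pos ω ((j + 1) * 2 ^ i)).2 : ℝ) - ((pos ω (j * 2 ^ i)).2 : ℝ)) ^ 2) = Vf N T (2 ^ i) := by
    intro j hj
    rw [Finset.mem_range] at hj
    have h7 : (j + 1) * 2 ^ i ≤ 2 ^ n := by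
      calc (j + 1) * 2 ^ i ≤ 2 ^ (n - i) * 2 ^ i := Nat.mul_le_mul_right _ (by omega)
        _ = 2 ^ n := by rw [← pow_add]; congr 1; omega
    have h8 : (j + 1) * 2 ^ i = j * 2 ^ i + 2 ^ i := by ring
    rw [h8]
    exact Av_y_increment _ _ (by omega)
  rw [Finset.sum_congr rfl h6, Finset.sum_const, Finset.card_range, nsmul_eq_mul]
  push_cast
  exact le_refl _

/-- doubling inequality: `V(s+t) ≤ 2 V(s) + 2 V(t)` -/
lemma Vf_add_le (s t : ℕ) (hst : s + t ≤ T) : Vf N T (s + t) ≤ 2 * Vf N T s + 2 * Vf N T t := by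
  have h1 := Av_x_increment (N := N) s t hst
  rw [← h1]
  unfold Vf
  rw [← Av_mul_left, ← Av_mul_left, ← Av_add]
  refine Av_mono _ _ fun ω => ?_
  nlinarith [sq_nonneg (((pos ω (s + t)).1 : ℝ) - 2 * ((pos ω s).1 : ℝ))]

/-- reverse doubling inequality: `V(s) ≤ 2 V(s+t) + 2 V(t)` -/
lemma Vf_le_add (s t : ℕ) (hst : s + t ≤ T) : Vf N T s ≤ 2 * Vf N T (s + t) + 2 * Vf N T t := by
  have h1 := Av_x_increment (N := N) s t hst
  rw [← h1]
  unfold Vf
  rw [← Av_mul_left, ← Av_mul_left, ← Av_add]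
  refine Av_mono _ _ fun ω => ?_
  nlinarith [sq_nonneg (2 * ((pos ω (s + t)).1 : ℝ) - ((pos ω s).1 : ℝ))]

lemma mx_mono (ω : Om N T) (m n : ℕ) (h : m ≤ n) : mx ω m ≤ mx ω n := by
  unfold mx maxY
  refine Finset.sup_mono ?_
  intro s hs
  rw [Finset.mem_range] at hs ⊢
  omega

end

end Pool.Agent.Helper47.Manh
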