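import Pool.Agent.Helper47.Manh.Avg

set_option autoImplicit false
set_option linter.unusedSectionVars false

namespace Pool.Agent.Helper47.Manh

section
variable {N T : ℕ} [NeZero N]

/-- stationarity of the increments -/
lemma Av_increment (G : ℤ × ℤ → ℝ) (s t : ℕ) (hst : s + t ≤ T) :
    Av (fun ω : Om N T => G (pos ω (s + t) - pos ω s)) = Av (fun ω : Om N T => G (pos ω t)) := by
  have h1 : ∀ ω : Om N T, G (pos ω (s + t) - pos ω s) =
      (fun ω' : Om N T => G (walk ω'.1 ω'.2.1 (fun i => ext ω'.2.2 (s + i)) t)) (env s ω) := by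
    intro ω
    simp only [pos, env]
    rw [walk_add]
    congr 1
    abel
  rw [Av_congr _ _ h1, Av_comp (env s) (env_bij s)
    (fun ω' : Om N T => G (walk ω'.1 ω'.2.1 (fun i => ext ω'.2.2 (s + i)) t))]
  have h2 : ∀ ω : Om N T, G (walk ω.1 ω.2.1 (fun i => ext ω.2.2 (s + i)) t) =
      (fun ω' : Om N T => G (pos ω' t)) (rotc s ω) := by
    intro ω
    simp only [pos, rotc]
    congr 1
    refine walk_congr_coins _ _ _ _ _ fun i hi => ?_
    rw [ext_of_lt _ i (by omega), ext_of_lt _ (s + i) (by omega)]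
    refine congrArg ω.2.2 (Fin.ext ?_)
    show s + i = (i + s) % T
    rw [Nat.mod_eq_of_lt (by omega)]
    omega
  rw [Av_congr _ _ h2, Av_comp (rotc s) (rotc_bij s) (fun ω' : Om N T => G (pos ω' t))]

/-- flipping a coin -/
def flipc (s : ℕ) (ω : Om N T) : Om N T :=
  (ω.1, ω.2.1, fun i : Fin T => if i.1 = s then !(ω.2.2 i) else ω.2.2 i)

lemma flipc_bij (s : ℕ) : Function.Bijective (flipc (N := N) (T := T) s) := by
  refine Function.Involutive.bijective ?_
  rintro ⟨h, v, c⟩
  unfold flipc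
  simp only [Prod.mk.injEq, true_and]
  funext i
  split_ifs <;> simp

lemma ext_flipc_same (s : ℕ) (hs : s < T) (ω : Om N T) :
    ext (flipc s ω).2.2 s = !(ext ω.2.2 s) := by
  rw [ext_of_lt _ s hs, ext_of_lt _ s hs]
  simp [flipc]

lemma ext_flipc_ne (s i : ℕ) (hi : i ≠ s) (ω : Om N T) :
    ext (flipc s ω).2.2 i = ext ω.2.2 i := by
  unfold ext flipc
  by_cases h : i < T
  · simp [hi, h]
  · simp [h]

/-- the position up to time `s` does not depend on coin `s` -/
lemma pos_flipc (s n : ℕ) (hn : n ≤ s) (ω : Om N T) : pos (flipc s ω) n = pos ω n := by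
  unfold pos
  exact walk_congr_coins _ _ _ _ _ fun i hi => ext_flipc_ne s i (by omega) ω

/-- a coin is fair -/
lemma Av_coin (s : ℕ) (hs : s < T) (A : Om N T → ℝ) (hA : ∀ ω, A (flipc s ω) = A ω) :
    Av (fun ω : Om N T => (if ext ω.2.2 s = true then A ω else 0)) = Av A / 2 := by
  have h1 := Av_comp (flipc s) (flipc_bij s)
    (fun ω : Om N T => (if ext ω.2.2 s = true then A ω else 0))
  have h2 : Av (fun ω : Om N T => (if ext (flipc s ω).2.2 s = true then A (flipc s ω) else 0))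
      + Av (fun ω : Om N T => (if ext ω.2.2 s = true then A ω else 0)) = Av A := by
    rw [← Av_add]
    refine Av_congr _ _ fun ω => ?_
    rw [ext_flipc_same s hs, hA]
    cases ext ω.2.2 s <;> simp
  linarith

/-- flipping a row -/
def flipR (k : ZMod N) (ω : Om N T) : Om N T :=
  (Function.update ω.1 k (!(ω.1 k)), ω.2.1, ω.2.2)

lemma flipR_invol (k : ZMod N) : Function.Involutive (flipR (N := N) (T := T) k) := by
  rintro ⟨h, v, c⟩
  simp [flipR]

lemma flipR_bij (k : ZMod N) : Function.Bijective (flipR (N := N) (T := T) k) :=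
  (flipR_invol k).bijective

/-- real sign of a row -/
noncomputable def sr (ω : Om N T) (k : ZMod N) : ℝ := (sg (ω.1 k) : ℝ)

lemma sr_sq (ω : Om N T) (k : ZMod N) : sr ω k * sr ω k = 1 := by
  unfold sr
  rw [← Int.cast_mul, sg_sq, Int.cast_one]

lemma sr_flipR_same (ω : Om N T) (k : ZMod N) : sr (flipR k ω) k = - sr ω k := by
  unfold sr flipR
  simp [sg_not]

lemma sr_flipR_ne (ω : Om N T) (k l : ZMod N) (h : l ≠ k) : sr (flipR k ω) l = sr ω l := by
  unfold sr flipR
  simp [h]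

lemma Av_sr_mul (k l : ZMod N) :
    Av (fun ω : Om N T => sr ω k * sr ω l) = if k = l then 1 else 0 := by
  split_ifs with h
  · subst h
    rw [Av_congr _ _ fun ω => sr_sq ω k, Av_const]
  · refine Av_eq_zero_of_odd (flipR l) (flipR_bij l) _ fun ω => ?_
    rw [sr_flipR_same, sr_flipR_ne _ _ _ h]
    ring

/-- distance of a row from row zero -/
def nrm (k : ZMod N) : ℕ := k.valMinAbs.natAbs

lemma nrm_le (k : ZMod N) (y : ℤ) (h : (y : ZMod N) = k) : nrm k ≤ y.natAbs := by
  unfold nrm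
  refine ZMod.natAbs_min_of_le_div_two N _ _ ?_ (ZMod.natAbs_valMinAbs_le k)
  rw [ZMod.coe_valMinAbs, h]

/-- running maximum -/
def mx (ω : Om N T) (n : ℕ) : ℕ := maxY ω.1 ω.2.1 (ext ω.2.2) n

lemma pos_flipR (ω : Om N T) (k : ZMod N) (n : ℕ) (hk : mx ω n < nrm k) (s : ℕ) (hs : s ≤ n) :
    pos (flipR k ω) s = pos ω s := by
  unfold pos flipR
  refine walk_update ω.1 ω.2.1 (ext ω.2.2) k (!(ω.1 k)) s fun i hi => ?_
  intro h
  have h1 := nrm_le k _ h
  have h2 := le_maxY ω.1 ω.2.1 (ext ω.2.2) n i (by omega)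
  unfold mx at hk
  omega

lemma mx_flipR (ω : Om N T) (k : ZMod N) (n : ℕ) (hk : mx ω n < nrm k) :
    mx (flipR k ω) n = mx ω n := by
  unfold mx
  exact maxY_congr _ _ _ _ _ _ _ fun s hs => pos_flipR ω k n hk s hs

lemma mx_flipR_lt_iff (ω : Om N T) (k : ZMod N) (n : ℕ) :
    mx (flipR k ω) n < nrm k ↔ mx ω n < nrm k := by
  constructor
  · intro h
    have h2 := mx_flipR (flipR k ω) k n h
    rw [flipR_invol k ω] at h2
    omega
  · intro h
    rw [mx_flipR ω k n h]; exact h

/-- total of the signs -/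
noncomputable def Stot (ω : Om N T) : ℝ := ∑ k, sr ω k

lemma Stot_env (s : ℕ) (ω : Om N T) : Stot (env s ω) = Stot ω := by
  unfold Stot
  have : ∀ k, sr (env s ω) k = sr ω (k + ((pos ω s).2 : ZMod N)) := fun k => rfl
  simp_rw [this]
  exact Equiv.sum_comp (Equiv.addRight ((pos ω s).2 : ZMod N)) (fun k => sr ω k)

/-- the horizontal displacement as a sum -/
lemma pos_fst_eq (ω : Om N T) (n : ℕ) : ((pos ω n).1 : ℝ) =
    ∑ s ∈ Finset.range n, (if ext ω.2.2 s = true then sr (env s ω) 0 else 0) := by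
  induction n with
  | zero => simp [pos]
  | succ n ih =>
    rw [Finset.sum_range_succ, ← ih]
    have : pos ω (n + 1) = if ext ω.2.2 n = true then
      ((pos ω n).1 + sg (ω.1 ((pos ω n).2 : ZMod N)), (pos ω n).2)
    else
      ((pos ω n).1, (pos ω n).2 + sg (ω.2.1 ((pos ω n).1 : ZMod N))) := rfl
    rw [this]
    split_ifs
    · simp only [Int.cast_add]
      congr 2
      unfold env
      simp
    · simp

/-- correlation of the displacement with the total of the row signs -/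
lemma Av_x_Stot (n : ℕ) (hn : n ≤ T) :
    Av (fun ω : Om N T => ((pos ω n).1 : ℝ) * Stot ω) = n / 2 := by
  have h1 : ∀ ω : Om N T, ((pos ω n).1 : ℝ) * Stot ω =
      ∑ s ∈ Finset.range n,
        (fun ω' : Om N T => (if ext ω'.2.2 s = true then sr ω' 0 * Stot ω' else 0)) (env s ω) := by
    intro ω
    rw [pos_fst_eq, Finset.sum_mul]
    refine Finset.sum_congr rfl fun s _ => ?_
    simp only
    rw [Stot_env]
    have : (env s ω).2.2 = ω.2.2 := rfl
    rw [this]
    split_ifs <;> simp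
  rw [Av_congr _ _ h1, Av_sum]
  have h2 : ∀ s ∈ Finset.range n, Av (fun ω : Om N T =>
      (fun ω' : Om N T => (if ext ω'.2.2 s = true then sr ω' 0 * Stot ω' else 0)) (env s ω))
      = 1 / 2 := by
    intro s hs
    rw [Finset.mem_range] at hs
    rw [Av_comp (env s) (env_bij s)
      (fun ω' : Om N T => (if ext ω'.2.2 s = true then sr ω' 0 * Stot ω' else 0)), Av_coin s (by omega) (fun ω' : Om N T => sr ω' 0 * Stot ω')
      (fun ω => rfl)]
    congr 1
    have : ∀ ω : Om N T, sr ω 0 * Stot ω = ∑ k, sr ω 0 * sr ω k := by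
      intro ω; unfold Stot; rw [Finset.mul_sum]
    rw [Av_congr _ _ this, Av_sum]
    simp_rw [Av_sr_mul]
    simp
  rw [Finset.sum_congr rfl h2]
  simp
  ring

/-- the sum of the signs of the rows within distance `mx` -/
noncomputable def HM (n : ℕ) (ω : Om N T) : ℝ :=
  ∑ k, (if nrm k ≤ mx ω n then sr ω k else 0)

lemma Av_x_HM (n : ℕ) (hn : n ≤ T) :
    Av (fun ω : Om N T => ((pos ω n).1 : ℝ) * HM n ω) = n / 2 := by
  rw [← Av_x_Stot (N := N) n hn]
  have h1 : ∀ ω : Om N T, ((pos ω n).1 : ℝ) * HM n ω = ∑ k, (((pos ω n).1 : ℝ) * sr ω k -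
      (if mx ω n < nrm k then ((pos ω n).1 : ℝ) * sr ω k else 0)) := by
    intro ω
    unfold HM
    rw [Finset.mul_sum]
    refine Finset.sum_congr rfl fun k _ => ?_
    by_cases h : nrm k ≤ mx ω n
    · simp [h, not_lt.2 h]
    · simp [h, not_le.1 h]
  rw [Av_congr _ _ h1, Av_sum]
  have h2 : ∀ ω : Om N T, ((pos ω n).1 : ℝ) * Stot ω = ∑ k, ((pos ω n).1 : ℝ) * sr ω k := by
    intro ω; unfold Stot; rw [Finset.mul_sum]
  rw [Av_congr _ _ h2, Av_sum]
  refine Finset.sum_congr rfl fun k _ => ?_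
  rw [Av_sub]
  have : Av (fun ω : Om N T => (if mx ω n < nrm k then ((pos ω n).1 : ℝ) * sr ω k else 0)) = 0 := by
    refine Av_eq_zero_of_odd (flipR k) (flipR_bij k) _ fun ω => ?_
    by_cases h : mx ω n < nrm k
    · rw [if_pos ((mx_flipR_lt_iff ω k n).2 h), if_pos h, pos_flipR ω k n h n le_rfl,
        sr_flipR_same]
      ring
    · rw [if_neg (fun h' => h ((mx_flipR_lt_iff ω k n).1 h')), if_neg h, neg_zero]
  rw [this, sub_zero]

lemma Av_pair_zero (n : ℕ) (k l : ZMod N) (hkl : k ≠ l) (hle : nrm k ≤ nrm l) :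
    Av (fun ω : Om N T => (if nrm k ≤ mx ω n then sr ω k else 0) *
      (if nrm l ≤ mx ω n then sr ω l else 0)) = 0 := by
  have h1 : ∀ ω : Om N T, (if nrm k ≤ mx ω n then sr ω k else 0) *
      (if nrm l ≤ mx ω n then sr ω l else 0) =
      sr ω k * sr ω l - (if mx ω n < nrm l then sr ω k * sr ω l else 0) := by
    intro ω
    by_cases h : nrm l ≤ mx ω n
    · simp [h, le_trans hle h, not_lt.2 h]
    · simp [h, not_le.1 h]
  rw [Av_congr _ _ h1, Av_sub, Av_sr_mul, if_neg hkl]
  have : Av (fun ω : Om N T => (if mx ω n < nrm l then sr ω k * sr ω l else 0)) = 0 := by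
    refine Av_eq_zero_of_odd (flipR l) (flipR_bij l) _ fun ω => ?_
    by_cases h : mx ω n < nrm l
    · rw [if_pos ((mx_flipR_lt_iff ω l n).2 h), if_pos h, sr_flipR_same,
        sr_flipR_ne _ _ _ hkl]
      ring
    · rw [if_neg (fun h' => h ((mx_flipR_lt_iff ω l n).1 h')), if_neg h, neg_zero]
  rw [this, sub_zero]

lemma card_nrm_le (M : ℕ) :
    ((Finset.univ.filter fun k : ZMod N => nrm k ≤ M).card : ℝ) ≤ 2 * M + 1 := by
  have h : (Finset.univ.filter fun k : ZMod N => nrm k ≤ M).card ≤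
      (Finset.Icc (-(M : ℤ)) M).card := by
    refine Finset.card_le_card_of_injOn (fun k => k.valMinAbs) ?_ ?_
    · intro k hk
      simp only [Finset.coe_filter, Finset.mem_univ, true_and, Set.mem_ofPred_eq] at hk
      simp only [Finset.coe_Icc, Set.mem_Icc]
      unfold nrm at hk
      omega
    · intro k _ l _ hkl
      exact ZMod.injective_valMinAbs hkl
  rw [Int.card_Icc] at h
  have h2 : ((M : ℤ) + 1 - -(M : ℤ)).toNat = 2 * M + 1 := by omega
  rw [h2] at h
  exact_mod_cast h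

lemma Av_HM_sq (n : ℕ) :
    Av (fun ω : Om N T => (HM n ω) ^ 2) ≤ Av (fun ω : Om N T => 2 * (mx ω n : ℝ) + 1) := by
  have h1 : ∀ ω : Om N T, (HM n ω) ^ 2 = ∑ k, ∑ l, (if nrm k ≤ mx ω n then sr ω k else 0) *
      (if nrm l ≤ mx ω n then sr ω l else 0) := by
    intro ω
    unfold HM
    rw [sq, Finset.sum_mul_sum]
  rw [Av_congr _ _ h1, Av_sum]
  have h2 : ∀ k : ZMod N, Av (fun ω : Om N T => ∑ l, (if nrm k ≤ mx ω n then sr ω k else 0) *
      (if nrm l ≤ mx ω n then sr ω l else 0)) =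
      Av (fun ω : Om N T => if nrm k ≤ mx ω n then 1 else 0) := by
    intro k
    rw [Av_sum, Finset.sum_eq_single k]
    · refine Av_congr _ _ fun ω => ?_
      split_ifs
      · exact sr_sq ω k
      · simp
    · intro l _ hl
      rcases le_total (nrm k) (nrm l) with h | h
      · exact Av_pair_zero n k l (Ne.symm hl) h
      · refine Eq.trans ?_ (Av_pair_zero (N := N) (T := T) n l k hl h)
        refine Av_congr _ _ fun ω => ?_
        exact mul_comm _ _
    · intro h; exact absurd (Finset.mem_univ _) h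
  rw [Finset.sum_congr rfl fun k _ => h2 k, ← Av_sum]
  refine Av_mono _ _ fun ω => ?_
  have h3 := card_nrm_le (N := N) (mx ω n)
  rw [Finset.sum_ite, Finset.sum_const_zero, add_zero, Finset.sum_const, nsmul_eq_mul, mul_one]
  exact h3

/-- **Main inequality**: the second moment of the horizontal displacement times the mean vertical
range is at least `n^2/4`. -/
theorem main_ineq (n : ℕ) (hn : n ≤ T) :
    (n : ℝ) ^ 2 / 4 ≤ Av (fun ω : Om N T => ((pos ω n).1 : ℝ) ^ 2) *
      Av (fun ω : Om N T => 2 * (mx ω n : ℝ) + 1) := by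
  have h1 := Av_mul_sq_le (N := N) (T := T) (fun ω => ((pos ω n).1 : ℝ)) (fun ω => HM n ω)
  rw [Av_x_HM n hn] at h1
  have h2 := Av_HM_sq (N := N) (T := T) n
  have h3 : 0 ≤ Av (fun ω : Om N T => ((pos ω n).1 : ℝ) ^ 2) := Av_nonneg _ fun ω => sq_nonneg _
  calc (n : ℝ) ^ 2 / 4 = (n / 2) ^ 2 := by ring
    _ ≤ _ := h1
    _ ≤ _ := mul_le_mul_of_nonneg_left h2 h3

end

end Pool.Agent.Helper47.Manh
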