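import Pool.Agent.Helper47.Manh.Chain
import Pool.Agent.Helper47.Manh.Ana3
import Pool.Agent.Helper94.ManhBridge
import Pool.Agent.Helper70.ManhUpper

set_option autoImplicit false

open MeasureTheory Filter

namespace Pool.Agent.Helper47.Manh

open Pool.Agent.Helper94.ManhBridge (bridge)
open Pool.Agent.Helper70.ManhUpper (upper32)

/-- the law of the coins and orientations: all independent and uniform -/
noncomputable abbrev law : Measure (ℕ ⊕ (ℤ ⊕ ℤ) → Bool) :=
  Measure.infinitePi (fun _ : ℕ ⊕ (ℤ ⊕ ℤ) => (PMF.uniformOfFintype Bool).toMeasure)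

/-- the walk: `ω (inl n)` decides at step `n` between a horizontal (`true`) and a vertical step;
`ω (inr (inl k))` is the orientation of row `k`, `ω (inr (inr j))` that of column `j` -/
def X (ω : ℕ ⊕ (ℤ ⊕ ℤ) → Bool) (t : ℕ) : ℤ × ℤ :=
  Nat.rec (motive := fun _ => ℤ × ℤ) ((0 : ℤ), (0 : ℤ))
    (fun n x =>
      if ω (Sum.inl n) = true then
        (x.1 + (if ω (Sum.inr (Sum.inl x.2)) = true then (1 : ℤ) else -1), x.2)
      else
        (x.1, x.2 + (if ω (Sum.inr (Sum.inr x.1)) = true then (1 : ℤ) else -1)))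
    t

/-- `E |X_t|^2` -/
noncomputable def V (t : ℕ) : ℝ := ∫ ω, (((X ω t).1 : ℝ) ^ 2 + ((X ω t).2 : ℝ) ^ 2) ∂law

/-- `E max_{s ≤ t} |y_s|`, where `y_s` is the second coordinate of `X_s` -/
noncomputable def R (t : ℕ) : ℝ :=
  ∫ ω, (((Finset.range (t + 1)).sup (fun s => (X ω s).2.natAbs) : ℕ) : ℝ) ∂law

/-- `E max_{s ≤ t} |X_s|^2` -/
noncomputable def Q (t : ℕ) : ℝ :=
  ∫ ω, (((Finset.range (t + 1)).sup
    (fun s => (X ω s).1.natAbs ^ 2 + (X ω s).2.natAbs ^ 2) : ℕ) : ℝ) ∂law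

lemma X_eq (ω : ℕ ⊕ (ℤ ⊕ ℤ) → Bool) (t : ℕ) : X ω t =
    walk (fun k : ℤ => ω (Sum.inr (Sum.inl k))) (fun j : ℤ => ω (Sum.inr (Sum.inr j)))
      (fun i => ω (Sum.inl i)) t := by
  induction t with
  | zero => rfl
  | succ t ih =>
    have h1 : X ω (t + 1) = if ω (Sum.inl t) = true then
        ((X ω t).1 + (if ω (Sum.inr (Sum.inl (X ω t).2)) = true then (1 : ℤ) else -1), (X ω t).2)
      else
        ((X ω t).1, (X ω t).2 + (if ω (Sum.inr (Sum.inr (X ω t).1)) = true then (1 : ℤ) else -1)) :=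
      rfl
    rw [h1, ih, walk_succ]
    simp only [sg, Int.cast_id]

lemma V_eq (N T t : ℕ) [NeZero N] (hN : 2 * T < N) (ht : t ≤ T) : V t = 2 * Vf N T t := by
  have h := bridge N T hN (fun p => ((p t).1 : ℝ) ^ 2 + ((p t).2 : ℝ) ^ 2)
    (fun p q hpq => by simp only [hpq t ht])
  unfold V
  simp only [X_eq]
  rw [h, Av_add, Av_y_sq t ht]
  unfold Vf
  ring

lemma R_eq (N T t : ℕ) [NeZero N] (hN : 2 * T < N) (ht : t ≤ T) :
    R t = Av (fun ω : Om N T => (mx ω t : ℝ)) := by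
  have h := bridge N T hN (fun p => (((Finset.range (t + 1)).sup
    (fun s => (p s).2.natAbs) : ℕ) : ℝ)) (fun p q hpq => by
      congr 1
      refine Finset.sup_congr rfl fun s hs => ?_
      rw [hpq s (by have := Finset.mem_range.1 hs; omega)])
  unfold R
  simp only [X_eq]
  rw [h]
  rfl

lemma Q_eq (N T t : ℕ) [NeZero N] (hN : 2 * T < N) (ht : t ≤ T) :
    Q t = Av (fun ω : Om N T => (((Finset.range (t + 1)).sup
      (fun s => (pos ω s).1.natAbs ^ 2 + (pos ω s).2.natAbs ^ 2) : ℕ) : ℝ)) := by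
  have h := bridge N T hN (fun p => (((Finset.range (t + 1)).sup
    (fun s => (p s).1.natAbs ^ 2 + (p s).2.natAbs ^ 2) : ℕ) : ℝ)) (fun p q hpq => by
      congr 1
      refine Finset.sup_congr rfl fun s hs => ?_
      rw [hpq s (by have := Finset.mem_range.1 hs; omega)])
  unfold Q
  simp only [X_eq]
  rw [h]

theorem facts : Facts V R := by
  refine ⟨?_, ?_, ?_, ?_, ?_, ?_, ?_, ?_, ?_⟩
  · intro n
    have : NeZero (2 * n + 1) := ⟨by omega⟩
    rw [V_eq (2 * n + 1) n n (by omega) le_rfl]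
    have := Vf_nonneg (N := 2 * n + 1) (T := n) n
    linarith
  · intro n
    have : NeZero (2 * n + 1) := ⟨by omega⟩
    rw [R_eq (2 * n + 1) n n (by omega) le_rfl]
    exact Av_nonneg _ fun ω => Nat.cast_nonneg _
  · have : NeZero (3 : ℕ) := ⟨by omega⟩
    have h := bridge 3 1 (by omega) (fun p => ((p 1).1 : ℝ) ^ 2 + ((p 1).2 : ℝ) ^ 2)
      (fun p q hpq => by simp only [hpq 1 le_rfl])
    unfold V
    simp only [X_eq]
    rw [h]
    have : ∀ ω : Om 3 1, ((pos ω 1).1 : ℝ) ^ 2 + ((pos ω 1).2 : ℝ) ^ 2 = 1 := by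
      intro ω
      unfold pos
      rw [walk_succ]
      simp only [walk_zero]
      split_ifs
      · cases ω.1 ((0 : ℤ) : ZMod 3) <;> simp
      · cases ω.2.1 ((0 : ℤ) : ZMod 3) <;> simp
    rw [Av_congr _ _ this, Av_const]
  · intro n
    have : NeZero (2 * n + 1) := ⟨by omega⟩
    have h := main_ineq (N := 2 * n + 1) (T := n) n le_rfl
    rw [Av_add (fun ω : Om (2 * n + 1) n => 2 * (mx ω n : ℝ)) (fun _ => 1), Av_const,
      Av_mul_left, ← R_eq (2 * n + 1) n n (by omega) le_rfl] at h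
    have h2 := V_eq (2 * n + 1) n n (by omega) le_rfl
    unfold Vf at h2
    rw [h2]
    nlinarith
  · intro m n hmn
    have : NeZero (2 * n + 1) := ⟨by omega⟩
    rw [R_eq (2 * n + 1) n n (by omega) le_rfl, R_eq (2 * n + 1) n m (by omega) hmn]
    refine Av_mono _ _ fun ω => ?_
    exact_mod_cast mx_mono ω m n hmn
  · intro n
    have : NeZero (2 * 2 ^ n + 1) := ⟨by omega⟩
    rw [R_eq (2 * 2 ^ n + 1) (2 ^ n) (2 ^ n) (by omega) le_rfl]
    refine (Av_mx_le n le_rfl).trans (le_of_eq ?_)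
    refine Finset.sum_congr rfl fun i hi => ?_
    rw [Finset.mem_range] at hi
    rw [V_eq (2 * 2 ^ n + 1) (2 ^ n) (2 ^ i) (by omega)
      (Nat.pow_le_pow_right (by norm_num) (by omega))]
    congr 2
    ring
  · intro s t
    have : NeZero (2 * (s + t) + 1) := ⟨by omega⟩
    rw [V_eq (2 * (s + t) + 1) (s + t) (s + t) (by omega) le_rfl,
      V_eq (2 * (s + t) + 1) (s + t) s (by omega) (by omega),
      V_eq (2 * (s + t) + 1) (s + t) t (by omega) (by omega)]
    have := Vf_add_le (N := 2 * (s + t) + 1) (T := s + t) s t le_rfl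
    linarith
  · intro s t
    have : NeZero (2 * (s + t) + 1) := ⟨by omega⟩
    rw [V_eq (2 * (s + t) + 1) (s + t) (s + t) (by omega) le_rfl,
      V_eq (2 * (s + t) + 1) (s + t) s (by omega) (by omega),
      V_eq (2 * (s + t) + 1) (s + t) t (by omega) (by omega)]
    have := Vf_le_add (N := 2 * (s + t) + 1) (T := s + t) s t le_rfl
    linarith
  · obtain ⟨C, hC, h⟩ := upper32
    refine ⟨2 * C, by positivity, fun n => ?_⟩
    have : NeZero (4 * n + 9) := ⟨by omega⟩
    rw [V_eq (4 * n + 9) n n (by omega) le_rfl]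
    have := h (4 * n + 9) n (by omega) n le_rfl
    unfold Vf
    linarith

/-- the running maximum -/
theorem Q_lower (t : ℕ) : (t : ℝ) ^ ((4 : ℝ) / 3) / 4 ≤ Q t := by
  rcases Nat.eq_zero_or_pos t with rfl | ht
  · have : NeZero (1 : ℕ) := ⟨by omega⟩
    rw [Q_eq 1 0 0 (by omega) le_rfl]
    have h1 : ((0 : ℕ) : ℝ) ^ ((4 : ℝ) / 3) = 0 := by
      rw [Nat.cast_zero, Real.zero_rpow (by norm_num)]
    rw [h1, zero_div]
    exact Av_nonneg _ fun ω => Nat.cast_nonneg _
  · have : NeZero (2 * t + 1) := ⟨by omega⟩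
    have hQ := Q_eq (2 * t + 1) t t (by omega) le_rfl
    have hV : V t ≤ Q t := by
      have h := bridge (2 * t + 1) t (by omega) (fun p => ((p t).1 : ℝ) ^ 2 + ((p t).2 : ℝ) ^ 2)
        (fun p q hpq => by simp only [hpq t le_rfl])
      unfold V
      simp only [X_eq]
      rw [h, hQ]
      refine Av_mono _ _ fun ω => ?_
      have h1 : (pos ω t).1.natAbs ^ 2 + (pos ω t).2.natAbs ^ 2 ≤
          (Finset.range (t + 1)).sup
            (fun s => (pos ω s).1.natAbs ^ 2 + (pos ω s).2.natAbs ^ 2) :=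
        Finset.le_sup (f := fun s => (pos ω s).1.natAbs ^ 2 + (pos ω s).2.natAbs ^ 2)
          (Finset.mem_range.2 (by omega))
      have h2 : (((pos ω t).1.natAbs ^ 2 + (pos ω t).2.natAbs ^ 2 : ℕ) : ℝ) ≤ _ :=
        Nat.cast_le.2 h1
      refine le_trans (le_of_eq ?_) h2
      push_cast
      rw [Nat.cast_natAbs, Nat.cast_natAbs, Int.cast_abs, Int.cast_abs, sq_abs, sq_abs]
    have hR : R t ^ 2 ≤ Q t := by
      rw [R_eq (2 * t + 1) t t (by omega) le_rfl, hQ]
      refine (Av_sq_le _).trans (Av_mono _ _ fun ω => ?_)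
      unfold mx maxY
      obtain ⟨s, hs, hs2⟩ := Finset.exists_mem_eq_sup (Finset.range (t + 1))
        ⟨0, Finset.mem_range.2 (Nat.succ_pos _)⟩
        (fun s => ((walk ω.1 ω.2.1 (ext ω.2.2) s).2).natAbs)
      rw [hs2]
      have h1 : (pos ω s).1.natAbs ^ 2 + (pos ω s).2.natAbs ^ 2 ≤
          (Finset.range (t + 1)).sup
            (fun s => (pos ω s).1.natAbs ^ 2 + (pos ω s).2.natAbs ^ 2) :=
        Finset.le_sup (f := fun s => (pos ω s).1.natAbs ^ 2 + (pos ω s).2.natAbs ^ 2) hs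
      have h2 : (walk ω.1 ω.2.1 (ext ω.2.2) s).2.natAbs ^ 2 ≤ (Finset.range (t + 1)).sup
            (fun s => (pos ω s).1.natAbs ^ 2 + (pos ω s).2.natAbs ^ 2) :=
        le_trans (Nat.le_add_left _ _) h1
      exact_mod_cast h2
    have hQ1 : 1 ≤ Q t := by
      have h0 : V 1 ≤ Q t := by
        rw [hQ]
        have h := bridge (2 * t + 1) t (by omega) (fun p => ((p 1).1 : ℝ) ^ 2 + ((p 1).2 : ℝ) ^ 2)
          (fun p q hpq => by simp only [hpq 1 (by omega)])
        unfold V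
        simp only [X_eq]
        rw [h]
        refine Av_mono _ _ fun ω => ?_
        have h1 : (pos ω 1).1.natAbs ^ 2 + (pos ω 1).2.natAbs ^ 2 ≤
            (Finset.range (t + 1)).sup
              (fun s => (pos ω s).1.natAbs ^ 2 + (pos ω s).2.natAbs ^ 2) :=
          Finset.le_sup (f := fun s => (pos ω s).1.natAbs ^ 2 + (pos ω s).2.natAbs ^ 2)
            (Finset.mem_range.2 (by omega))
        have h2 : (((pos ω 1).1.natAbs ^ 2 + (pos ω 1).2.natAbs ^ 2 : ℕ) : ℝ) ≤ _ :=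
          Nat.cast_le.2 h1
        refine le_trans (le_of_eq ?_) h2
        push_cast
        rw [Nat.cast_natAbs, Nat.cast_natAbs, Int.cast_abs, Int.cast_abs, sq_abs, sq_abs]
      rw [facts.V1] at h0
      exact h0
    have hm := facts.main t
    have hR0 := facts.R0 t
    have hV0 := facts.V0 t
    set q := Real.sqrt (Q t) with hq
    have hq2 : q ^ 2 = Q t := Real.sq_sqrt (by linarith)
    have hq1 : 1 ≤ q := by rw [hq, Real.one_le_sqrt]; exact hQ1
    have hRq : R t ≤ q := Real.le_sqrt_of_sq_le hR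
    have h1 : (t : ℝ) ^ 2 / 2 ≤ q ^ 2 * (3 * q) := by
      refine hm.trans ?_
      rw [hq2]
      exact mul_le_mul hV (by linarith) (by linarith) (by linarith)
    have h2 : (t : ℝ) ^ 2 / 6 ≤ q ^ 3 := by nlinarith
    have h3 : ((t : ℝ) ^ 2 / 6) ^ ((2 : ℝ) / 3) ≤ (q ^ 3) ^ ((2 : ℝ) / 3) :=
      Real.rpow_le_rpow (by positivity) h2 (by norm_num)
    have h4 : (q ^ 3) ^ ((2 : ℝ) / 3) = Q t := by
      rw [← hq2, ← Real.rpow_natCast q 3, ← Real.rpow_mul (by linarith), ← Real.rpow_natCast q 2]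
      norm_num
    have h5 : ((t : ℝ) ^ 2 / 6) ^ ((2 : ℝ) / 3) = (t : ℝ) ^ ((4 : ℝ) / 3) / 6 ^ ((2 : ℝ) / 3) := by
      rw [Real.div_rpow (by positivity) (by norm_num), ← Real.rpow_natCast (t : ℝ) 2,
        ← Real.rpow_mul (by positivity)]
      norm_num
    have h6 : (6 : ℝ) ^ ((2 : ℝ) / 3) ≤ 4 := by
      have h7 : ((6 : ℝ) ^ ((2 : ℝ) / 3)) ^ 3 = 36 := by
        rw [← Real.rpow_natCast, ← Real.rpow_mul (by norm_num)]
        norm_num
      by_contra h8
      push Not at h8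
      have := pow_lt_pow_left₀ h8 (by norm_num) (show 3 ≠ 0 by norm_num)
      rw [h7] at this
      norm_num at this
    rw [h4, h5] at h3
    refine le_trans ?_ h3
    exact div_le_div_of_nonneg_left (by positivity) (by positivity) h6

end Pool.Agent.Helper47.Manh
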