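import Mathlib

set_option autoImplicit false

namespace Pool.Agent.Helper47.Manh

/-- the sign of an orientation -/
def sg (b : Bool) : ℤ := if b = true then 1 else -1

@[simp] lemma sg_true : sg true = 1 := rfl
@[simp] lemma sg_false : sg false = -1 := rfl
lemma sg_not (b : Bool) : sg (!b) = - sg b := by cases b <;> rfl
lemma sg_sq (b : Bool) : sg b * sg b = 1 := by cases b <;> rfl
lemma abs_sg (b : Bool) : |sg b| = 1 := by cases b <;> rfl
lemma natAbs_sg (b : Bool) : (sg b).natAbs = 1 := by cases b <;> rfl

/-- The walk with rows and columns indexed by a ring `A` (`ℤ` or `ZMod N`), in the environment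
`h` (rows), `v` (columns), with coins `c`; positions are lifted to `ℤ × ℤ`. -/
def walk {A : Type*} [CommRing A] (h v : A → Bool) (c : ℕ → Bool) : ℕ → ℤ × ℤ
  | 0 => (0, 0)
  | n + 1 =>
    if c n = true then
      ((walk h v c n).1 + sg (h ((walk h v c n).2 : A)), (walk h v c n).2)
    else
      ((walk h v c n).1, (walk h v c n).2 + sg (v ((walk h v c n).1 : A)))

section
variable {A : Type*} [CommRing A]

@[simp] lemma walk_zero (h v : A → Bool) (c : ℕ → Bool) : walk h v c 0 = (0, 0) := rfl

lemma walk_succ (h v : A → Bool) (c : ℕ → Bool) (n : ℕ) : walk h v c (n + 1) =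
    if c n = true then
      ((walk h v c n).1 + sg (h ((walk h v c n).2 : A)), (walk h v c n).2)
    else
      ((walk h v c n).1, (walk h v c n).2 + sg (v ((walk h v c n).1 : A))) := rfl

/-- the walk up to time `n` only uses the coins before `n` -/
lemma walk_congr_coins (h v : A → Bool) (c c' : ℕ → Bool) (n : ℕ)
    (hc : ∀ i < n, c i = c' i) : walk h v c n = walk h v c' n := by
  induction n with
  | zero => rfl
  | succ n ih =>
    rw [walk_succ, walk_succ, ih (fun i hi => hc i (by omega)), hc n (by omega)]

/-- number of steps bounds the position -/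
lemma walk_bound (h v : A → Bool) (c : ℕ → Bool) (n : ℕ) :
    (walk h v c n).1.natAbs + (walk h v c n).2.natAbs ≤ n := by
  induction n with
  | zero => simp
  | succ n ih =>
    rw [walk_succ]
    have h1 := natAbs_sg (h ((walk h v c n).2 : A))
    have h2 := natAbs_sg (v ((walk h v c n).1 : A))
    split_ifs
    · simp only
      have := Int.natAbs_add_le (walk h v c n).1 (sg (h ((walk h v c n).2 : A)))
      omega
    · simp only
      have := Int.natAbs_add_le (walk h v c n).2 (sg (v ((walk h v c n).1 : A)))
      omega

/-- Markov property -/
lemma walk_add (h v : A → Bool) (c : ℕ → Bool) (s t : ℕ) :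
    walk h v c (s + t) = walk h v c s +
      walk (fun k => h (k + ((walk h v c s).2 : A))) (fun j => v (j + ((walk h v c s).1 : A)))
        (fun i => c (s + i)) t := by
  induction t with
  | zero => simp
  | succ t ih =>
    rw [← add_assoc, walk_succ, walk_succ, ih]
    generalize walk (fun k => h (k + ((walk h v c s).2 : A)))
      (fun j => v (j + ((walk h v c s).1 : A))) (fun i => c (s + i)) t = w
    by_cases hc : c (s + t) = true
    · simp only [hc, if_true, Prod.fst_add, Prod.snd_add]
      ext
      · simp only [Prod.fst_add, add_assoc]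
        congr 3
        push_cast
        rw [add_comm]
      · simp
    · simp only [hc, Prod.fst_add, Prod.snd_add]
      ext
      · simp
      · simp only [Prod.snd_add, add_assoc]
        simp only [Bool.false_eq_true, if_false]
        congr 3
        push_cast
        rw [add_comm]

/-- exchanging rows and columns -/
lemma walk_swap (h v : A → Bool) (c : ℕ → Bool) (n : ℕ) :
    walk v h (fun i => !(c i)) n = ((walk h v c n).2, (walk h v c n).1) := by
  induction n with
  | zero => rfl
  | succ n ih =>
    rw [walk_succ, walk_succ, ih]
    cases hc : c n <;> simp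

/-- flipping the orientation of a row which is not met before time `n` does not change the
walk up to time `n` -/
lemma walk_update (h v : A → Bool) (c : ℕ → Bool) [DecidableEq A] (k : A) (b : Bool) (n : ℕ)
    (hk : ∀ i < n, ((walk h v c i).2 : A) ≠ k) :
    walk (Function.update h k b) v c n = walk h v c n := by
  induction n with
  | zero => rfl
  | succ n ih =>
    rw [walk_succ, walk_succ, ih (fun i hi => hk i (by omega)),
      Function.update_of_ne (hk n (by omega))]

end

/-- the running maximum of the distance of the walk from row `0` up to time `n` -/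
def maxY {A : Type*} [CommRing A] (h v : A → Bool) (c : ℕ → Bool) (n : ℕ) : ℕ :=
  (Finset.range (n + 1)).sup (fun s => ((walk h v c s).2).natAbs)

section
variable {A : Type*} [CommRing A]

lemma le_maxY (h v : A → Bool) (c : ℕ → Bool) (n s : ℕ) (hs : s ≤ n) :
    ((walk h v c s).2).natAbs ≤ maxY h v c n :=
  Finset.le_sup (f := fun s => ((walk h v c s).2).natAbs) (Finset.mem_range.2 (by omega))

lemma maxY_congr (h v h' v' : A → Bool) (c c' : ℕ → Bool) (n : ℕ)
    (H : ∀ s ≤ n, walk h v c s = walk h' v' c' s) : maxY h v c n = maxY h' v' c' n := by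
  unfold maxY
  refine Finset.sup_congr rfl fun s hs => ?_
  rw [H s (by have := Finset.mem_range.1 hs; omega)]

end

end Pool.Agent.Helper47.Manh
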